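import Pool.Agent.Helper79.LBR.Crn
import Pool.Agent.Helper57.TA.Fin

/-! LB and LR in every box of a corner with flat untilted lower coordinates, one polynomial of jets for all scales. -/

set_option autoImplicit false
set_option linter.unusedSectionVars false

namespace Pool.Agent.Helper79.LBR

open Finset Filter Topology Pool.Agent.Helper69.RK Pool.Agent.Helper31.EC Pool.Agent.Helper31.EC.Sp
open Pool.Agent.Helper31.EC.QS Pool.Agent.Helper57.TA Pool.Agent.Helper21.DO Pool.Agent.Helper38.NS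
open Pool.Agent.Helper79.JET Pool.Agent.Helper79.WLK Pool.Agent.Helper79.HLD Pool.Agent.Helper13.AM
open Pool.Agent.Helper14.WLK (LG CS CS_C CS_X CS_aeval LG_know)

noncomputable section

variable {S : Sp} {d N r : ℕ} {c : CD S d N r} {w : Fin N → ℝ} {z : Fin N} {ρ : ℝ} {s : ℝ} {j : Fin N}
    {H : Fin N → MvPolynomial (Fin (d + 1) ⊕ Fin N) (QS S)} {Jh : Fin N → MvPolynomial (Fin (d + 1)) (QS S)}

theorem LG_K (hb : c.Bx w z) (hs : 0 ≤ s) (hs1 : w z * s ≤ 1) (hH : ∀ k, H k ∈ PK ⊥) {σ : Type}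
    {P : MvPolynomial σ (QS S)} (hP : P ∈ CS (LG (gH c H s))) : P ∈ PK (c.K s) := by
  intro m
  rw [← vd_gH hb hs hs1 hH]
  exact LG_know (hP m)

theorem rename_PK' {σ τ : Type} {A : S.L} {P : MvPolynomial σ (QS S)} (hP : P ∈ PK A) (f : σ → τ) :
    MvPolynomial.rename f P ∈ PK A := rename_PK hP f

/-- the difference of `M k` and the horizontal function is small -/
theorem D1_ws (hA : c.Ax w z ρ) (hs : 0 ≤ s) (hs1 : w z * s ≤ 1) (hH : ∀ k, H k ∈ PK ⊥) (hlow : ∀ k, Low w k (H k))
    (k : Kp w j) {Psi : MvPolynomial (Fin (d + 1)) (QS S)} (hP : Psi ∈ PK (c.K s))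
    (hPe : c.cR H k.1 - MvPolynomial.eval (fun i => c.q i - c.q0 s i) Psi ∈ Id S (w k.1 * s)) :
    WS (wk d w j) s (w k.1 * s) (MM c H s k - MvPolynomial.rename Sum.inl Psi) := by
  have hwt : ∀ a : Fin (d + 1) ⊕ Kp w j, 0 ≤ wk d w j a := wk_nonneg hA.w1
  obtain ⟨ℓ, hℓ, hℓ1, hℓw⟩ := exists_ell hs hwt (wk_lt (d := d) (j := j) hA.w1 hA.wz hs hs1)
  have hu0 : ∀ a : Fin (d + 1) ⊕ Kp w j, 0 ≤ wk d w j a * s := fun a => mul_nonneg (hwt a) hs
  choose ξ hξ hξk using fun a : Fin (d + 1) ⊕ Kp w j =>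
    exists_div' (hu0 a) (wk_le hA.w1 hA.wz hs hs1 a) (bx_mem hA.bx hs hs1 a)
  have hRt := full_xi hA hs hs1 hℓ.le hℓw hξ
  have hwk1 : w k.1 * s ≤ 1 := (mul_le_mul_of_nonneg_right (hA.wz k.1) hs).trans hs1
  have hev : MvPolynomial.eval (fun a => sc S (wk d w j a * s) * ξ a)
      (MM c H s k - MvPolynomial.rename Sum.inl Psi) ∈ Id S (w k.1 * s) := by
    have e1 : (fun a => sc S (wk d w j a * s) * ξ a) = bx c w j s := by
      funext a
      exact (hξ a).symm
    rw [e1, map_sub, MvPolynomial.eval_rename]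
    have e2 : bx c w j s ∘ Sum.inl = fun i => c.q i - c.q0 s i := rfl
    rw [e2]
    have h1 := Ideal.sub_mem _ hPe (hA.bx.fγ s hs hs1 k.1)
    refine (congrArg (· ∈ Id S (w k.1 * s)) ?_).mp h1
    rw [eval_MM hA.bx hA.w1 hs hs1 hlow k]
    ring
  intro m
  exact small_raw hwt hs hℓ hℓ1 hRt hwk1 le_rfl (PKr_of_PK le_rfl ((PK _).sub_mem
    (LG_K hA.bx hs hs1 hH (MM_LG hA.bx k)) (rename_PK hP _))) hev m

theorem hz0_ws {σw : Fin (d + 1) ⊕ Kp w j → ℝ} (hσ : ∀ a, σw (Sum.inl a) = 1) (hs : 0 ≤ s) {u : ℝ}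
    {P : MvPolynomial (Fin (d + 1) ⊕ Kp w j) (QS S)} (hP : WS σw s u P) :
    WS (fun _ => 1) s u (hz0 P) := by
  unfold hz0
  refine WS.aeval (fun _ => zero_le_one) hs hP ?_
  rintro (a | l)
  · rw [hσ a]
    exact WS.X (wt := fun _ : Fin (d + 1) => (1 : ℝ)) a
  · exact WS.zero

theorem rename_ws (hs : 0 ≤ s) (w1 : ∀ j, 1 < w j) {u : ℝ} {P : MvPolynomial (Fin (d + 1)) (QS S)}
    (hP : WS (fun _ => 1) s u P) : WS (wk d w j) s u (MvPolynomial.rename Sum.inl P) := by
  classical
  intro m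
  by_cases h : ∃ n : Fin (d + 1) →₀ ℕ, n.mapDomain Sum.inl = m
  · obtain ⟨n, rfl⟩ := h
    rw [MvPolynomial.coeff_rename_mapDomain _ Sum.inl_injective]
    have h1 := hP n
    have h2 : wgt (wk d w j) (n.mapDomain Sum.inl) = wgt (fun _ => 1) n := by
      rw [wgt_inl]
      rfl
    rw [h2]
    exact h1
  · have h1 : (MvPolynomial.rename Sum.inl P : MvPolynomial (Fin (d + 1) ⊕ Kp w j) (QS S)).coeff m = 0 :=
      MvPolynomial.coeff_rename_eq_zero _ _ _ fun n hn => absurd ⟨n, hn⟩ h
    rw [h1]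
    exact Ideal.zero_mem _

/-- the horizontal part is close to every horizontal function of the flat box -/
theorem Ps_ws (hA : c.Ax w z ρ) (hs : 0 ≤ s) (hs1 : w z * s ≤ 1) (hH : ∀ k, H k ∈ PK ⊥) (hlow : ∀ k, Low w k (H k))
    (k : Kp w j) {Psi : MvPolynomial (Fin (d + 1)) (QS S)} (hP : Psi ∈ PK (c.K s))
    (hPe : c.cR H k.1 - MvPolynomial.eval (fun i => c.q i - c.q0 s i) Psi ∈ Id S (w k.1 * s)) :
    WS (fun _ => 1) s (w k.1 * s) (Ps c H s k - Psi) := by
  have h1 := hz0_ws (fun _ => rfl) hs (D1_ws hA hs hs1 hH hlow k hP hPe)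
  rw [map_sub, hz0_rename] at h1
  exact h1

/-- the rest is small -/
theorem NN_ws (hA : c.Ax w z ρ) (hs : 0 ≤ s) (hs1 : w z * s ≤ 1) (hH : ∀ k, H k ∈ PK ⊥) (hlow : ∀ k, Low w k (H k))
    (k : Kp w j) (hU : Unt c H Jh w k.1 s) : WS (wk d w j) s (w k.1 * s) (NN c H s k) := by
  obtain ⟨Psi, hP, hPe, -⟩ := hU
  have h1 := D1_ws hA hs hs1 hH hlow k hP hPe
  have h2 := rename_ws (j := j) hs hA.w1 (Ps_ws hA hs hs1 hH hlow k hP hPe)
  have e1 : NN c H s k = (MM c H s k - MvPolynomial.rename Sum.inl Psi) -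
      MvPolynomial.rename Sum.inl (Ps c H s k - Psi) := by
    unfold NN
    rw [map_sub]
    ring
  rw [e1]
  exact h1.sub h2

/-- straightened coordinate of the box -/
def et (c : CD S d N r) (H : Fin N → MvPolynomial (Fin (d + 1) ⊕ Fin N) (QS S)) (s : ℝ) (k : Kp w j) : QS S :=
  c.cR H k.1 - MvPolynomial.eval (fun i => c.q i - c.q0 s i) (Ps c H s k)

theorem et_eq (hb : c.Bx w z) (w1 : ∀ j, 1 < w j) (hs : 0 ≤ s) (hs1 : w z * s ≤ 1) (hlow : ∀ k, Low w k (H k))
    (k : Kp w j) : et c H s k = c.γ s k.1 + MvPolynomial.eval (bx c w j s) (NN c H s k) := by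
  unfold et NN
  rw [eval_MM hb w1 hs hs1 hlow k, map_sub, MvPolynomial.eval_rename]
  have e2 : bx c w j s ∘ Sum.inl = fun i => c.q i - c.q0 s i := rfl
  rw [e2]
  ring

/-- the box coordinates as functions of the straightened ones -/
theorem exists_inv (hb : c.Bx w z) (w1 : ∀ j, 1 < w j) (hs : 0 ≤ s) (hs1 : w z * s ≤ 1)
    (hlow : ∀ k, Low w k (H k)) : ∀ (n : ℕ) (k : Kp w j), (univ.filter fun l => w l < w k.1).card ≤ n →
      ∃ φ : MvPolynomial (Fin (d + 1) ⊕ Kp w j) (QS S), φ ∈ CS (LG (gH c H s)) ∧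
        MvPolynomial.eval (Sum.elim (fun i => c.q i - c.q0 s i) (et c H s)) φ = c.γ s k.1 := by
  classical
  intro n
  induction n with
  | zero =>
    intro k hk
    refine ⟨MvPolynomial.X (Sum.inr k) - NN c H s k, (CS _).sub_mem (CS_X _ _) (NN_LG hb k), ?_⟩
    rw [map_sub, MvPolynomial.eval_X, Sum.elim_inr, et_eq hb w1 hs hs1 hlow k]
    have e1 : MvPolynomial.eval (Sum.elim (fun i => c.q i - c.q0 s i) (et c H s)) (NN c H s k) =
        MvPolynomial.eval (bx c w j s) (NN c H s k) := by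
      apply NN_low
      intro l hl
      have h2 : l.1 ∈ univ.filter fun l => w l < w k.1 := Finset.mem_filter.mpr ⟨Finset.mem_univ _, hl⟩
      rw [Finset.card_eq_zero.mp (Nat.le_zero.mp hk)] at h2
      exact absurd h2 (Finset.notMem_empty _)
    rw [e1]
    ring
  | succ n ih =>
    intro k hk
    have h1 : ∀ l : Kp w j, ∃ φ : MvPolynomial (Fin (d + 1) ⊕ Kp w j) (QS S), φ ∈ CS (LG (gH c H s)) ∧
        (w l.1 < w k.1 → MvPolynomial.eval (Sum.elim (fun i => c.q i - c.q0 s i) (et c H s)) φ = c.γ s l.1) := by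
      intro l
      by_cases hl : w l.1 < w k.1
      · have h2 : (univ.filter fun l' => w l' < w l.1) ⊂ univ.filter fun l' => w l' < w k.1 := by
          rw [Finset.ssubset_iff_of_subset]
          · exact ⟨l.1, Finset.mem_filter.mpr ⟨Finset.mem_univ _, hl⟩,
              fun h => lt_irrefl _ (Finset.mem_filter.mp h).2⟩
          · intro x hx
            exact Finset.mem_filter.mpr ⟨Finset.mem_univ x, (Finset.mem_filter.mp hx).2.trans hl⟩
        have h3 := Finset.card_lt_card h2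
        obtain ⟨φ, h4, h5⟩ := ih l (by omega)
        exact ⟨φ, h4, fun _ => h5⟩
      · exact ⟨0, (CS _).zero_mem, fun h => absurd h hl⟩
    choose φ hφ1 hφ2 using h1
    refine ⟨MvPolynomial.X (Sum.inr k) - MvPolynomial.aeval (Sum.elim (fun a => MvPolynomial.X (Sum.inl a)) φ)
      (NN c H s k), (CS _).sub_mem (CS_X _ _) (CS_aeval (NN_LG hb k) ?_), ?_⟩
    · rintro (a | l)
      · exact CS_X _ _
      · exact hφ1 l
    · rw [map_sub, MvPolynomial.eval_X, Sum.elim_inr, et_eq hb w1 hs hs1 hlow k, eval_sbs]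
      have e0 : (fun i => MvPolynomial.eval (Sum.elim (fun i => c.q i - c.q0 s i) (et c H s))
          (Sum.elim (fun a => MvPolynomial.X (Sum.inl a)) φ i)) =
          Sum.elim (fun i => c.q i - c.q0 s i)
            (fun l => MvPolynomial.eval (Sum.elim (fun i => c.q i - c.q0 s i) (et c H s)) (φ l)) := by
        funext i
        rcases i with a | l
        · rw [Sum.elim_inl, Sum.elim_inl, MvPolynomial.eval_X, Sum.elim_inl]
        · rfl
      have e1 : MvPolynomial.eval (Sum.elim (fun i => c.q i - c.q0 s i)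
          (fun l => MvPolynomial.eval (Sum.elim (fun i => c.q i - c.q0 s i) (et c H s)) (φ l))) (NN c H s k) =
          MvPolynomial.eval (bx c w j s) (NN c H s k) := by
        apply NN_low
        intro l hl
        exact hφ2 l hl
      rw [e0, e1]
      ring

/-- the frame of the next coordinate in the straightened box coordinates -/
theorem exists_frame (hb : c.Bx w z) (w1 : ∀ j, 1 < w j) (hs : 0 ≤ s) (hs1 : w z * s ≤ 1)
    (hlow : ∀ k, Low w k (H k)) : ∃ F : MvPolynomial (Fin (d + 1) ⊕ Kp w j) (QS S), F ∈ CS (LG (gH c H s)) ∧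
      c.R j = MvPolynomial.eval (Sum.elim (fun i => c.q i - c.q0 s i) (et c H s)) F + c.γ s j := by
  classical
  choose φ hφ1 hφ2 using fun k : Kp w j => exists_inv (H := H) hb w1 hs hs1 hlow _ k le_rfl
  refine ⟨MvPolynomial.aeval (Sum.elim (fun a => MvPolynomial.X (Sum.inl a)) φ) (res w j (c.F s j)),
    CS_aeval (res_CS (F_LG hb j)) ?_, ?_⟩
  · rintro (a | l)
    · exact CS_X _ _
    · exact hφ1 l
  · rw [eval_sbs]
    have e0 : (fun i => MvPolynomial.eval (Sum.elim (fun i => c.q i - c.q0 s i) (et c H s))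
        (Sum.elim (fun a => MvPolynomial.X (Sum.inl a)) φ i)) =
        Sum.elim (fun i => c.q i - c.q0 s i) fun l : Kp w j => c.γ s l.1 := by
      funext i
      rcases i with a | l
      · rw [Sum.elim_inl, Sum.elim_inl, MvPolynomial.eval_X, Sum.elim_inl]
      · rw [Sum.elim_inr, Sum.elim_inr, hφ2]
    rw [e0, eval_res (F_low hb w1 s j) le_rfl]
    exact hb.fR s hs hs1 j

/-- THE STRAIGHTENED BOX of a corner at the scale `s` -/
theorem fr1 (hA : c.Ax w z ρ) (hs : 0 ≤ s) (hs1 : w z * s ≤ 1) (hH : ∀ k, H k ∈ PK ⊥) (hlow : ∀ k, Low w k (H k))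
    (hU : ∀ k, w k < w j → Unt c H Jh w k s) :
    Nonempty (Fr1 c.q (fun k : Kp w j => c.cR H k.1) (fun k => Jh k.1) (c.R j) (wk d w j) (w j) (gH c H s) s) := by
  classical
  obtain ⟨F, hF, hFe⟩ := exists_frame (H := H) (j := j) hA.bx hA.w1 hs hs1 hlow
  have hetI : ∀ k : Kp w j, et c H s k ∈ Id S (w k.1 * s) := by
    intro k
    rw [et_eq hA.bx hA.w1 hs hs1 hlow k]
    exact Ideal.add_mem _ (hA.bx.fγ s hs hs1 k.1) ((NN_ws hA hs hs1 hH hlow k (hU k.1 k.2)).eval
      (bx_mem hA.bx hs hs1))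
  refine ⟨{ q0 := c.q0 s
            Ψ := fun k => Ps c H s k
            F := F
            q0L := q0_LG hA.bx
            ΨL := fun k => Ps_LG hA.bx k
            FL := hF
            hq := fun a => bx_mem (j := j) hA.bx hs hs1 (Sum.inl a)
            hR := hetI
            hz := ?_
            unt := ?_
            full := ?_ }⟩
  · have e1 : c.R j - MvPolynomial.eval (Sum.elim (fun i => c.q i - c.q0 s i) (et c H s)) F = c.γ s j := by
      rw [hFe]
      ring
    have h1 := hA.bx.fγ s hs hs1 j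
    rw [← e1] at h1
    exact h1
  · intro k n hn
    obtain ⟨Psi, hP, hPe, hPu⟩ := hU k.1 k.2
    have h1 := hPu n hn
    have h2 : WS (fun _ => 1) s (w k.1 * s) (sh (fun i => c.q i - c.q0 s i) (Ps c H s k - Psi)) := by
      unfold sh
      refine WS.aeval (fun _ => zero_le_one) hs (Ps_ws hA hs hs1 hH hlow k hP hPe) fun a => ?_
      refine (WS.C (fun _ => zero_le_one) hs ?_).add (WS.X (wt := fun _ : Fin (d + 1) => (1 : ℝ)) a)
      rw [one_mul]
      exact hA.bx.fq s hs hs1 a
    have h3 := Ideal.add_mem _ (h2 n) h1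
    have e1 : sh (fun i => c.q i - c.q0 s i) (Ps c H s k) - Jh k.1 =
        sh (fun i => c.q i - c.q0 s i) (Ps c H s k - Psi) + (sh (fun i => c.q i - c.q0 s i) Psi - Jh k.1) := by
      unfold sh
      rw [map_sub (MvPolynomial.aeval _)]
      ring
    rw [e1, MvPolynomial.coeff_add]
    exact h3
  · rw [vd_gH hA.bx hs hs1 hH]
    have hu0 : ∀ a : Fin (d + 1) ⊕ Kp w j, 0 ≤ wk d w j a * s := fun a => mul_nonneg (wk_nonneg hA.w1 a) hs
    have hu1 : ∀ a : Fin (d + 1) ⊕ Kp w j, wk d w j a * s ≤ 1 := wk_le hA.w1 hA.wz hs hs1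
    apply le_antisymm
    · -- upper bound
      obtain ⟨U, hUd⟩ : ∃ U : S.L, U = Finset.univ.sup fun a => dg (bx c w j s a) 1 := ⟨_, rfl⟩
      have hUa : ∀ a, dg (bx c w j s a) 1 ≤ U := fun a => by
        rw [hUd]
        exact Finset.le_sup (f := fun a => dg (bx c w j s a) 1) (Finset.mem_univ a)
      have h1 : vd (Sum.elim c.q fun k : Kp w j => c.cR H k.1) 1 ≤ U ⊔ c.K s := by
        rw [vd_le]
        rintro (a | k)
        · show dg (c.q a) 1 ≤ _
          have e1 : c.q a = (c.q a - c.q0 s a) + c.q0 s a := by ring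
          rw [e1]
          exact (dg_add_le _ _ le_rfl).trans (sup_le ((hUa (Sum.inl a)).trans le_sup_left)
            ((q0_le hA.bx s a).trans le_sup_right))
        · show dg (c.cR H k.1) 1 ≤ _
          rw [eval_MM hA.bx hA.w1 hs hs1 hlow k]
          refine (dg_add_le _ _ le_rfl).trans (sup_le ((hUa (Sum.inr k)).trans le_sup_left) ?_)
          exact QS.eval_mem (LG_K hA.bx hs hs1 hH (MM_LG hA.bx k)) _ le_sup_right
            fun a => (hUa a).trans le_sup_left
      refine (h_mono h1).trans ?_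
      rw [h_sup_right_of_le le_rfl, hUd]
      refine (h_finsup_le _ _ _).trans (Finset.sum_le_sum fun a _ => ?_)
      exact h_dg_small (hu0 a) (hu1 a) (bx_mem hA.bx hs hs1 a) _
    · -- lower bound
      obtain ⟨V, hV⟩ : ∃ V : S.L, V = vd (Sum.elim c.q fun k : Kp w j => c.cR H k.1) 1 := ⟨_, rfl⟩
      have hqV : ∀ a, dg (c.q a) 1 ≤ V := fun a => by
        rw [hV]
        exact dg_le_vd (Sum.elim c.q fun k : Kp w j => c.cR H k.1) 1 (Sum.inl a)
      have hRV : ∀ (n : ℕ) (k : Fin N), (univ.filter fun l => w l < w k).card ≤ n → w k < w j →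
          dg (c.R k) 1 ≤ V := by
        intro n
        induction n with
        | zero =>
          intro k hk hkj
          have e1 : c.R k = c.cR H k + MvPolynomial.eval (Sum.elim c.q c.R) (H k) := by
            unfold CD.cR CD.pt
            ring
          have e2 : MvPolynomial.eval (Sum.elim c.q c.R) (H k) =
              MvPolynomial.eval (Sum.elim c.q fun _ => 0) (H k) := by
            apply (hlow k).eval
            intro l hl
            have h2 : l ∈ univ.filter fun l => w l < w k := Finset.mem_filter.mpr ⟨Finset.mem_univ _, hl⟩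
            rw [Finset.card_eq_zero.mp (Nat.le_zero.mp hk)] at h2
            exact absurd h2 (Finset.notMem_empty _)
          rw [e1, e2]
          refine (dg_add_le _ _ le_rfl).trans (sup_le ?_ ?_)
          · rw [hV]
            exact dg_le_vd (Sum.elim c.q fun k : Kp w j => c.cR H k.1) 1 (Sum.inr ⟨k, hkj⟩)
          · refine QS.eval_mem (PK_mono bot_le (hH k)) _ le_rfl ?_
            rintro (a | l)
            · exact hqV a
            · exact (Kn S 1 le_rfl V).zero_mem
        | succ n ih =>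
          intro k hk hkj
          have e1 : c.R k = c.cR H k + MvPolynomial.eval (Sum.elim c.q c.R) (H k) := by
            unfold CD.cR CD.pt
            ring
          have e2 : MvPolynomial.eval (Sum.elim c.q c.R) (H k) =
              MvPolynomial.eval (Sum.elim c.q (cy w k c.R)) (H k) := by
            apply (hlow k).eval
            intro l hl
            rw [cy_pos hl]
          rw [e1, e2]
          refine (dg_add_le _ _ le_rfl).trans (sup_le ?_ ?_)
          · rw [hV]
            exact dg_le_vd (Sum.elim c.q fun k : Kp w j => c.cR H k.1) 1 (Sum.inr ⟨k, hkj⟩)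
          · refine QS.eval_mem (PK_mono bot_le (hH k)) _ le_rfl ?_
            rintro (a | l)
            · exact hqV a
            · show dg (cy w k c.R l) 1 ≤ V
              by_cases hl : w l < w k
              · rw [cy_pos hl]
                apply ih l _ (hl.trans hkj)
                have h2 : (univ.filter fun l' => w l' < w l) ⊂ univ.filter fun l' => w l' < w k := by
                  rw [Finset.ssubset_iff_of_subset]
                  · exact ⟨l, Finset.mem_filter.mpr ⟨Finset.mem_univ _, hl⟩,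
                      fun h => lt_irrefl _ (Finset.mem_filter.mp h).2⟩
                  · intro x hx
                    exact Finset.mem_filter.mpr ⟨Finset.mem_univ x, (Finset.mem_filter.mp hx).2.trans hl⟩
                have h3 := Finset.card_lt_card h2
                omega
              · rw [cy_neg hl]
                exact (Kn S 1 le_rfl V).zero_mem
      have h1 : c.P ⊔ vd (fun l : Kp w j => c.R l.1) 1 ≤ V := by
        refine sup_le ?_ ?_
        · show vd c.q 1 ≤ _
          rw [vd_le]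
          exact hqV
        · rw [vd_le]
          intro l
          exact hRV _ l.1 le_rfl l.2
      have h2 := h_mono (B := c.K s) h1
      rw [h_chain, h_P_K hA hs hs1] at h2
      have h3 := h_low hA hs hs1 j
      rw [sup_comm] at h3
      rw [← hV, Fintype.sum_sum_type]
      have e1 : ∑ a : Fin (d + 1), (1 - wk d w j (Sum.inl a) * s) = ((d : ℝ) + 1) * (1 - s) := by
        have e2 : ∀ a : Fin (d + 1), 1 - wk d w j (Sum.inl a) * s = 1 - s := fun a => by
          show 1 - 1 * s = _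
          ring
        simp only [e2]
        rw [Finset.sum_const, Finset.card_univ, Fintype.card_fin, nsmul_eq_mul]
        push_cast
        ring
      have h4 : ∑ l : Kp w j, (1 - wk d w j (Sum.inr l) * s) = ∑ l : Kp w j, (1 - w l.1 * s) := rfl
      rw [e1, h4]
      linarith

/-- LBR: literal boxes and the relation of the next coordinate for a corner whose lower coordinates are untilted -/
theorem lbr (hA : c.Ax w z ρ) {s₀ : ℝ} (hs0 : 0 ≤ s₀) (hs1 : w z * s₀ ≤ 1) (hH : ∀ k, H k ∈ PK ⊥)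
    (hlow : ∀ k, Low w k (H k)) (hJ0 : ∀ k, w k < w j → (Jh k).coeff 0 = 0)
    (hU : ∀ k, w k < w j → ∀ s, 0 ≤ s → s ≤ s₀ → Unt c H Jh w k s) :
    ∃ J : MvPolynomial (Fin (d + 1) ⊕ Kp w j) (QS S), (∀ m, J.coeff m ≠ 0 → m ≠ 0 ∧ wgt (wk d w j) m < w j) ∧
      (∀ A : S.L, c.O ≤ A → (∀ k : Kp w j, Jh k.1 ∈ PK A) → J ∈ PK A) ∧
      ∀ s, 0 ≤ s → s ≤ s₀ →
        LB c.q (fun k : Kp w j => c.cR H k.1) (fun k => Jh k.1) (wk d w j) (gH c H s) s ∧
        LR c.q (fun k : Kp w j => c.cR H k.1) (fun k => Jh k.1) (c.R j) J (gH c H s) (w j * s) := by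
  have hwz : 0 ≤ w z := (zero_lt_one.trans (hA.w1 z)).le
  have hss : ∀ s, s ≤ s₀ → w z * s ≤ 1 := fun s hs => (mul_le_mul_of_nonneg_left hs hwz).trans hs1
  obtain ⟨J, h1, h2, h3⟩ := exists_J (ι := fun s => Fin (c.m s) ⊕
      (Σ k : Fin N, {m : Fin (d + 1) ⊕ Fin N →₀ ℕ // m ∈ (H k).support})) (g := fun s => gH c H s)
    (q := c.q) (R := fun k : Kp w j => c.cR H k.1) (Q := fun k => Jh k.1) (z := c.R j) hs0
    (wk_nonneg (d := d) (j := j) hA.w1)
    (wk_lt hA.w1 hA.wz hs0 hs1) (zero_lt_one.trans (hA.w1 j)).le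
    ((mul_le_mul_of_nonneg_right (hA.wz j) hs0).trans hs1) (fun k => hJ0 k.1 k.2)
    (fun s hs hs' => fr1 hA hs (hss s hs') hH hlow fun k hk => hU k hk s hs hs')
    (fun s s' hs hs' hs'' => by
      rw [vd_gH hA.bx hs (hss s (hs'.trans hs'')) hH, vd_gH hA.bx (hs.trans hs') (hss s' hs'') hH]
      exact hA.bx.mono s s' hs hs' (hss s' hs''))
  refine ⟨J, h1, ?_, h3⟩
  intro A hO hJA
  apply h2 A (le_sup_left.trans hO) _ _ hJA
  · rw [vd_le]
    intro k
    show dg (c.R k.1 - MvPolynomial.eval c.pt (H k.1)) 1 ≤ A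
    refine (dg_sub_le _ _ le_rfl).trans (sup_le (((dg_le_vd c.R 1 k.1).trans le_sup_right).trans hO) ?_)
    refine QS.eval_mem (PK_mono bot_le (hH k.1)) _ le_rfl ?_
    rintro (a | l)
    · exact ((dg_le_vd c.q 1 a).trans le_sup_left).trans hO
    · exact ((dg_le_vd c.R 1 l).trans le_sup_right).trans hO
  · show vd (gH c H s₀) 1 ≤ A
    rw [vd_gH hA.bx hs0 hs1 hH]
    refine (hA.bx.pt s₀ hs0 hs1).trans (sup_le ?_ ?_)
    · exact ((vd_mono _ hs1).trans le_sup_left).trans hO
    · exact ((vd_mono _ hs1).trans le_sup_right).trans hO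

end

end Pool.Agent.Helper79.LBR
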