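import Pool.Agent.Helper79.LBR.Ful

/-! Literal boxes of a corner with flat untilted lower coordinates (LB, LR with one polynomial of jets for all scales).
-/

set_option autoImplicit false
set_option linter.unusedSectionVars false

namespace Pool.Agent.Helper79.LBR

open Finset Filter Topology Pool.Agent.Helper69.RK Pool.Agent.Helper31.EC Pool.Agent.Helper31.EC.Sp
open Pool.Agent.Helper31.EC.QS Pool.Agent.Helper57.TA Pool.Agent.Helper21.DO Pool.Agent.Helper38.NS
open Pool.Agent.Helper79.JET Pool.Agent.Helper79.WLK Pool.Agent.Helper79.HLD Pool.Agent.Helper13.AM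
open Pool.Agent.Helper14.WLK (LG CS CS_C CS_X CS_aeval LG_know)

noncomputable section

section alg

variable {A : Type*} [CommRing A] {d N : ℕ} {w : Fin N → ℝ} {j k : Fin N}

/-- only coordinates of weight `< w k` occur -/
def Low (w : Fin N → ℝ) (k : Fin N) (P : MvPolynomial (Fin (d + 1) ⊕ Fin N) A) : Prop :=
  ∀ n, P.coeff n ≠ 0 → ∀ l, n (Sum.inr l) ≠ 0 → w l < w k

theorem Low.eval {P : MvPolynomial (Fin (d + 1) ⊕ Fin N) A} (hP : Low w k P) (x : Fin (d + 1) → A) {y y' : Fin N → A}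
    (h : ∀ l, w l < w k → y l = y' l) : MvPolynomial.eval (Sum.elim x y) P = MvPolynomial.eval (Sum.elim x y') P := by
  rw [MvPolynomial.eval_eq', MvPolynomial.eval_eq']
  apply Finset.sum_congr rfl
  intro n hn
  congr 1
  apply Finset.prod_congr rfl
  rintro (a | l) _
  · rfl
  · show y l ^ n (Sum.inr l) = y' l ^ n (Sum.inr l)
    by_cases hl : n (Sum.inr l) = 0
    · rw [hl, pow_zero, pow_zero]
    · rw [h l (hP n (MvPolynomial.mem_support_iff.mp hn) l hl)]

/-- the variable of a coordinate, if it is lower -/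
def rv (d : ℕ) (w : Fin N → ℝ) (j l : Fin N) : MvPolynomial (Fin (d + 1) ⊕ Kp w j) A :=
  if h : w l < w j then MvPolynomial.X (Sum.inr ⟨l, h⟩) else 0

theorem rv_pos (l : Fin N) (h : w l < w j) :
    rv (A := A) d w j l = MvPolynomial.X (Sum.inr ⟨l, h⟩) := dif_pos h

theorem rv_neg (l : Fin N) (h : ¬ w l < w j) : rv (A := A) d w j l = 0 := dif_neg h

/-- cut of a family of values -/
def cy (w : Fin N → ℝ) (k : Fin N) (y : Fin N → A) (l : Fin N) : A := if w l < w k then y l else 0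

theorem cy_pos {y : Fin N → A} {l : Fin N} (h : w l < w k) : cy w k y l = y l := if_pos h

theorem cy_neg {y : Fin N → A} {l : Fin N} (h : ¬ w l < w k) : cy w k y l = 0 := if_neg h

/-- restriction to the variables of weight `< w j` -/
def res (w : Fin N → ℝ) (j : Fin N) : MvPolynomial (Fin (d + 1) ⊕ Fin N) A →ₐ[A] MvPolynomial (Fin (d + 1) ⊕ Kp w j) A :=
  MvPolynomial.aeval (Sum.elim (fun a => MvPolynomial.X (Sum.inl a)) (rv d w j))

theorem eval_rv (x : Fin (d + 1) → A) (y : Fin N → A) (l : Fin N) :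
    MvPolynomial.eval (Sum.elim x fun l : Kp w j => y l.1) (rv d w j l) = cy w j y l := by
  by_cases h : w l < w j
  · rw [rv_pos l h, cy_pos h, MvPolynomial.eval_X]
    rfl
  · rw [rv_neg l h, cy_neg h, map_zero]

theorem eval_res {P : MvPolynomial (Fin (d + 1) ⊕ Fin N) A} (hP : Low w k P) (hk : w k ≤ w j)
    (x : Fin (d + 1) → A) (y : Fin N → A) :
    MvPolynomial.eval (Sum.elim x fun l : Kp w j => y l.1) (res w j P) = MvPolynomial.eval (Sum.elim x y) P := by
  unfold res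
  rw [eval_sbs]
  have h1 : (fun i => MvPolynomial.eval (Sum.elim x fun l : Kp w j => y l.1)
      ((Sum.elim (fun a => MvPolynomial.X (Sum.inl a)) (rv d w j) :
          Fin (d + 1) ⊕ Fin N → MvPolynomial (Fin (d + 1) ⊕ Kp w j) A) i)) = Sum.elim x (cy w j y) := by
    funext i
    rcases i with a | l
    · rw [Sum.elim_inl, Sum.elim_inl, MvPolynomial.eval_X, Sum.elim_inl]
    · rw [Sum.elim_inr, Sum.elim_inr, eval_rv]
  rw [h1]
  exact hP.eval x fun l hl => cy_pos (hl.trans_le hk)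

/-- cut of the variables -/
def cv (d : ℕ) (k l : Kp w j) : MvPolynomial (Fin (d + 1) ⊕ Kp w j) A :=
  if w l.1 < w k.1 then MvPolynomial.X (Sum.inr l) else 0

theorem cv_pos {k l : Kp w j} (h : w l.1 < w k.1) : cv (A := A) d k l = MvPolynomial.X (Sum.inr l) := if_pos h

theorem cv_neg {k l : Kp w j} (h : ¬ w l.1 < w k.1) : cv (A := A) d k l = 0 := if_neg h

/-- cut of values -/
def cz (k : Kp w j) (y : Kp w j → A) (l : Kp w j) : A := if w l.1 < w k.1 then y l else 0

theorem cz_pos {k l : Kp w j} {y : Kp w j → A} (h : w l.1 < w k.1) : cz k y l = y l := if_pos h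

theorem cz_neg {k l : Kp w j} {y : Kp w j → A} (h : ¬ w l.1 < w k.1) : cz k y l = 0 := if_neg h

/-- restriction to the variables of weight `< w k` inside the lower variables -/
def cut (k : Kp w j) : MvPolynomial (Fin (d + 1) ⊕ Kp w j) A →ₐ[A] MvPolynomial (Fin (d + 1) ⊕ Kp w j) A :=
  MvPolynomial.aeval (Sum.elim (fun a => MvPolynomial.X (Sum.inl a)) (cv d k))

theorem eval_cut (k : Kp w j) (P : MvPolynomial (Fin (d + 1) ⊕ Kp w j) A) (x : Fin (d + 1) → A) (y : Kp w j → A) :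
    MvPolynomial.eval (Sum.elim x y) (cut k P) = MvPolynomial.eval (Sum.elim x (cz k y)) P := by
  unfold cut
  rw [eval_sbs]
  congr 2
  funext i
  rcases i with a | l
  · rw [Sum.elim_inl, Sum.elim_inl, MvPolynomial.eval_X, Sum.elim_inl]
  · rw [Sum.elim_inr, Sum.elim_inr]
    by_cases h : w l.1 < w k.1
    · rw [cv_pos h, cz_pos h, MvPolynomial.eval_X, Sum.elim_inr]
    · rw [cv_neg h, cz_neg h, map_zero]

/-- the part without vertical variables -/
def hz0 {κ : Type} : MvPolynomial (Fin (d + 1) ⊕ κ) A →ₐ[A] MvPolynomial (Fin (d + 1)) A :=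
  MvPolynomial.aeval (Sum.elim (fun a => MvPolynomial.X a) (fun _ => 0))

theorem hz0_rename {κ : Type} (P : MvPolynomial (Fin (d + 1)) A) :
    hz0 (κ := κ) (MvPolynomial.rename Sum.inl P) = P := by
  unfold hz0
  rw [MvPolynomial.aeval_rename]
  have h1 : (Sum.elim (fun a => MvPolynomial.X a) (fun _ => 0) : Fin (d + 1) ⊕ κ → MvPolynomial (Fin (d + 1)) A) ∘
      Sum.inl = MvPolynomial.X := rfl
  rw [h1, MvPolynomial.aeval_X_left, AlgHom.id_apply]

end alg

variable {S : Sp} {d N r : ℕ}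

/-- the finite family of the box: the functions `G s` of the corner and the coefficients of `H` -/
def gH (c : CD S d N r) (H : Fin N → MvPolynomial (Fin (d + 1) ⊕ Fin N) (QS S)) (s : ℝ) :
    Fin (c.m s) ⊕ (Σ k : Fin N, {m : Fin (d + 1) ⊕ Fin N →₀ ℕ // m ∈ (H k).support}) → QS S :=
  Sum.elim (c.G s) fun x => (H x.1).coeff x.2.1

section box

variable {c : CD S d N r} {w : Fin N → ℝ} {z : Fin N} {ρ : ℝ} {s : ℝ} {j : Fin N}
    {H : Fin N → MvPolynomial (Fin (d + 1) ⊕ Fin N) (QS S)}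

theorem H_LG (k : Fin N) : H k ∈ CS (LG (gH c H s)) := by
  intro m
  by_cases hm : m ∈ (H k).support
  · exact Pool.Agent.Helper14.WLK.LF_mem (f := gH c H s) (Sum.inr ⟨k, ⟨m, hm⟩⟩)
  · rw [MvPolynomial.notMem_support_iff.mp hm]
    exact (LG _).zero_mem

theorem G_LG (a : Fin (c.m s)) : c.G s a ∈ LG (gH c H s) :=
  Pool.Agent.Helper14.WLK.LF_mem (f := gH c H s) (Sum.inl a)

theorem q0_LG (hb : c.Bx w z) (i : Fin (d + 1)) : c.q0 s i ∈ LG (gH c H s) := by
  intro W P P' _ h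
  exact (hb.fr s W P P' fun a => h (Sum.inl a)).1 i

theorem F_LG (hb : c.Bx w z) (l : Fin N) : c.F s l ∈ CS (LG (gH c H s)) := by
  intro m W P P' _ h
  have h1 := (hb.fr s W P P' fun a => h (Sum.inl a)).2 l
  rw [← MvPolynomial.coeff_map, ← MvPolynomial.coeff_map, h1]

theorem vd_gH (hb : c.Bx w z) (hs : 0 ≤ s) (hs1 : w z * s ≤ 1) (hH : ∀ k, H k ∈ PK ⊥) :
    vd (gH c H s) 1 = c.K s := by
  rw [hb.gen s hs hs1]
  apply le_antisymm
  · rw [vd_le]
    rintro (a | ⟨k, m, hm⟩)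
    · exact dg_le_vd (c.G s) 1 a
    · exact (hH k m).trans bot_le
  · rw [vd_le]
    intro a
    exact dg_le_vd (gH c H s) 1 (Sum.inl a)

theorem F_low (hb : c.Bx w z) (w1 : ∀ j, 1 < w j) (s : ℝ) (k : Fin N) : Low w k (c.F s k) := by
  intro n hn l hl
  have h1 := hb.deg s k n hn
  have h2 : w l ≤ wgt (Sum.elim (fun _ => 1) w) n := by
    unfold wgt
    have h3 := Finset.single_le_sum (f := fun a => (n a : ℝ) * Sum.elim (fun _ => (1 : ℝ)) w a)
      (fun a _ => by
        rcases a with a | a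
        · exact mul_nonneg (Nat.cast_nonneg _) zero_le_one
        · exact mul_nonneg (Nat.cast_nonneg _) (by
            show 0 ≤ w a
            linarith [w1 a])) (Finset.mem_univ (Sum.inr l : Fin (d + 1) ⊕ Fin N))
    refine le_trans ?_ h3
    show w l ≤ (n (Sum.inr l) : ℝ) * w l
    have h4 : (1 : ℝ) ≤ n (Sum.inr l) := Nat.one_le_cast.mpr (Nat.one_le_iff_ne_zero.mpr hl)
    nlinarith [w1 l]
  exact h2.trans_lt h1

/-- the point in terms of the lower box coordinates -/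
def sub2 (c : CD S d N r) (w : Fin N → ℝ) (j : Fin N) (s : ℝ) :
    Fin (d + 1) ⊕ Fin N → MvPolynomial (Fin (d + 1) ⊕ Kp w j) (QS S) :=
  Sum.elim (fun a => MvPolynomial.C (c.q0 s a) + MvPolynomial.X (Sum.inl a))
    (fun l => res w j (c.F s l) + rv d w j l)

/-- `R^ k = γ k + M k (x, γ)` -/
def MM (c : CD S d N r) (H : Fin N → MvPolynomial (Fin (d + 1) ⊕ Fin N) (QS S)) (s : ℝ) (k : Kp w j) :
    MvPolynomial (Fin (d + 1) ⊕ Kp w j) (QS S) :=
  cut k (res w j (c.F s k.1) - MvPolynomial.aeval (sub2 c w j s) (H k.1))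

theorem eval_MM (hb : c.Bx w z) (w1 : ∀ j, 1 < w j) (hs : 0 ≤ s) (hs1 : w z * s ≤ 1) (hlow : ∀ k, Low w k (H k))
    (k : Kp w j) : c.cR H k.1 = c.γ s k.1 + MvPolynomial.eval (bx c w j s) (MM c H s k) := by
  obtain ⟨x, hx⟩ : ∃ x : Fin (d + 1) → QS S, x = fun i => c.q i - c.q0 s i := ⟨_, rfl⟩
  obtain ⟨y, hy⟩ : ∃ y : Fin N → QS S, y = cy w k.1 (c.γ s) := ⟨_, rfl⟩
  have hyp : ∀ l, w l < w k.1 → y l = c.γ s l := fun l hl => by
    rw [hy]
    exact cy_pos hl
  have h0 : bx c w j s = Sum.elim x fun l : Kp w j => c.γ s l.1 := by rw [hx]; rfl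
  have hyk : cz k (fun l : Kp w j => c.γ s l.1) = fun l : Kp w j => y l.1 := by
    funext l
    rw [hy]
    by_cases h : w l.1 < w k.1
    · rw [cz_pos h, cy_pos h]
    · rw [cz_neg h, cy_neg h]
  have hFl : ∀ l : Fin N, w l ≤ w k.1 → MvPolynomial.eval (Sum.elim x fun l : Kp w j => y l.1) (res w j (c.F s l)) =
      MvPolynomial.eval (Sum.elim x (c.γ s)) (c.F s l) := by
    intro l hl
    rw [eval_res (F_low hb w1 s l) (hl.trans k.2.le)]
    exact (F_low hb w1 s l).eval x fun l' hl' => hyp l' (hl'.trans_le hl)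
  have hR : ∀ l, c.R l = MvPolynomial.eval (Sum.elim x (c.γ s)) (c.F s l) + c.γ s l := by
    intro l
    rw [hx]
    exact hb.fR s hs hs1 l
  rw [h0]
  unfold MM
  rw [eval_cut, hyk, map_sub, hFl k.1 le_rfl, eval_sbs]
  have h1 : MvPolynomial.eval (fun i => MvPolynomial.eval (Sum.elim x fun l : Kp w j => y l.1) (sub2 c w j s i))
      (H k.1) = MvPolynomial.eval c.pt (H k.1) := by
    have e1 : (fun i => MvPolynomial.eval (Sum.elim x fun l : Kp w j => y l.1) (sub2 c w j s i)) =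
        Sum.elim c.q fun l => MvPolynomial.eval (Sum.elim x fun l : Kp w j => y l.1) (sub2 c w j s (Sum.inr l)) := by
      funext i
      rcases i with a | l
      · unfold sub2
        rw [Sum.elim_inl, Sum.elim_inl, map_add, MvPolynomial.eval_C, MvPolynomial.eval_X, Sum.elim_inl, hx]
        ring
      · rfl
    rw [e1]
    apply (hlow k.1).eval
    intro l hl
    unfold sub2
    rw [Sum.elim_inr, map_add, eval_rv, cy_pos (hl.trans k.2), hFl l hl.le, hR l, hyp l hl]
  rw [h1]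
  unfold CD.cR
  rw [hR k.1]
  ring

theorem rv_CS {R : Subring (QS S)} (l : Fin N) : rv (A := QS S) d w j l ∈ CS R := by
  by_cases h : w l < w j
  · rw [rv_pos l h]
    exact CS_X _ _
  · rw [rv_neg l h]
    exact (CS _).zero_mem

theorem cv_CS {R : Subring (QS S)} (k l : Kp w j) : cv (A := QS S) d k l ∈ CS R := by
  by_cases h : w l.1 < w k.1
  · rw [cv_pos h]
    exact CS_X _ _
  · rw [cv_neg h]
    exact (CS _).zero_mem

theorem res_CS {R : Subring (QS S)} {P : MvPolynomial (Fin (d + 1) ⊕ Fin N) (QS S)} (hP : P ∈ CS R) :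
    res w j P ∈ CS R := by
  refine CS_aeval hP ?_
  rintro (a | l)
  · exact CS_X _ _
  · exact rv_CS l

theorem sub2_LG (hb : c.Bx w z) (i : Fin (d + 1) ⊕ Fin N) : sub2 c w j s i ∈ CS (LG (gH c H s)) := by
  rcases i with a | l
  · exact (CS _).add_mem (CS_C (q0_LG hb a)) (CS_X _ _)
  · exact (CS _).add_mem (res_CS (F_LG hb l)) (rv_CS l)

theorem MM_LG (hb : c.Bx w z) (k : Kp w j) : MM c H s k ∈ CS (LG (gH c H s)) := by
  refine CS_aeval ((CS _).sub_mem (res_CS (F_LG hb k.1)) (CS_aeval (H_LG k.1) (sub2_LG hb))) ?_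
  rintro (a | l)
  · exact CS_X _ _
  · exact cv_CS k l

/-- the horizontal part -/
def Ps (c : CD S d N r) (H : Fin N → MvPolynomial (Fin (d + 1) ⊕ Fin N) (QS S)) (s : ℝ) (k : Kp w j) :
    MvPolynomial (Fin (d + 1)) (QS S) := hz0 (MM c H s k)

theorem Ps_LG (hb : c.Bx w z) (k : Kp w j) : Ps c H s k ∈ CS (LG (gH c H s)) := by
  refine CS_aeval (MM_LG hb k) ?_
  rintro (a | l')
  · exact CS_X _ _
  · exact (CS _).zero_mem

/-- the rest -/
def NN (c : CD S d N r) (H : Fin N → MvPolynomial (Fin (d + 1) ⊕ Fin N) (QS S)) (s : ℝ) (k : Kp w j) :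
    MvPolynomial (Fin (d + 1) ⊕ Kp w j) (QS S) := MM c H s k - MvPolynomial.rename Sum.inl (Ps c H s k)

theorem CS_rename {R : Subring (QS S)} {P : MvPolynomial (Fin (d + 1)) (QS S)} (hP : P ∈ CS R) {κ : Type} :
    (MvPolynomial.rename Sum.inl P : MvPolynomial (Fin (d + 1) ⊕ κ) (QS S)) ∈ CS R := by
  classical
  intro m
  by_cases h : ∃ n : Fin (d + 1) →₀ ℕ, n.mapDomain Sum.inl = m
  · obtain ⟨n, rfl⟩ := h
    rw [MvPolynomial.coeff_rename_mapDomain _ Sum.inl_injective]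
    exact hP n
  · have h1 : (MvPolynomial.rename Sum.inl P : MvPolynomial (Fin (d + 1) ⊕ κ) (QS S)).coeff m = 0 :=
      MvPolynomial.coeff_rename_eq_zero _ _ _ fun n hn => absurd ⟨n, hn⟩ h
    rw [h1]
    exact R.zero_mem

theorem NN_LG (hb : c.Bx w z) (k : Kp w j) : NN c H s k ∈ CS (LG (gH c H s)) :=
  (CS _).sub_mem (MM_LG hb k) (CS_rename (Ps_LG hb k))

theorem NN_low (k : Kp w j) (x : Fin (d + 1) → QS S) {y y' : Kp w j → QS S}
    (h : ∀ l : Kp w j, w l.1 < w k.1 → y l = y' l) :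
    MvPolynomial.eval (Sum.elim x y) (NN c H s k) = MvPolynomial.eval (Sum.elim x y') (NN c H s k) := by
  have h1 : cz k y = cz k y' := by
    funext l
    by_cases hl : w l.1 < w k.1
    · rw [cz_pos hl, cz_pos hl, h l hl]
    · rw [cz_neg hl, cz_neg hl]
  unfold NN MM
  rw [map_sub (MvPolynomial.eval (Sum.elim x y)), map_sub (MvPolynomial.eval (Sum.elim x y')), eval_cut, eval_cut,
    h1, MvPolynomial.eval_rename, MvPolynomial.eval_rename]
  rfl

/-- UNTILTED COORDINATES (the equations of helper57) at the scale `s` -/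
def Unt (c : CD S d N r) (H : Fin N → MvPolynomial (Fin (d + 1) ⊕ Fin N) (QS S))
    (Jh : Fin N → MvPolynomial (Fin (d + 1)) (QS S)) (w : Fin N → ℝ) (k : Fin N) (s : ℝ) : Prop :=
  ∃ Psi : MvPolynomial (Fin (d + 1)) (QS S), Psi ∈ PK (c.K s) ∧
    c.cR H k - MvPolynomial.eval (fun i => c.q i - c.q0 s i) Psi ∈ Id S (w k * s) ∧
    ∀ n, n ≠ 0 → (sh (fun i => c.q i - c.q0 s i) Psi - Jh k).coeff n ∈ Id S (w k * s - wgt (fun _ => 1) n * s)

end box

end

end Pool.Agent.Helper79.LBR
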