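import Pool.Agent.Helper79.WLK.Rc
import Pool.Agent.Helper14.WLK.Lf

/-! Weighted small polynomials: the coefficient of the monomial `m` lies in `Id (r - wgt m * s)`. -/

set_option autoImplicit false
set_option linter.unusedSectionVars false

namespace Pool.Agent.Helper79.LBR

open Finset Filter Topology Pool.Agent.Helper69.RK Pool.Agent.Helper31.EC Pool.Agent.Helper31.EC.Sp
open Pool.Agent.Helper31.EC.QS Pool.Agent.Helper57.TA Pool.Agent.Helper21.DO Pool.Agent.Helper38.NS
open Pool.Agent.Helper79.JET Pool.Agent.Helper79.WLK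

noncomputable section

variable {S : Sp}

/-- products, all levels -/
theorem mul_Id {f g : QS S} {a b : ℝ} (hf : f ∈ Id S a) (hg : g ∈ Id S b) : f * g ∈ Id S (a + b) := by
  rcases le_total 0 a with ha | ha
  · rcases le_total 0 b with hb | hb
    · exact mul_mem_Id ha hb hf hg
    · exact Ideal.mul_mem_right _ _ (Id_mono (by linarith) hf)
  · exact Ideal.mul_mem_left _ _ (Id_mono (by linarith) hg)

theorem pow_Id {f : QS S} {a : ℝ} (hf : f ∈ Id S a) (n : ℕ) : f ^ n ∈ Id S (n * a) := by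
  induction n with
  | zero =>
    rw [Nat.cast_zero, zero_mul]
    exact mem_Id_nonpos le_rfl
  | succ n ih =>
    rw [pow_succ]
    refine (congrArg (fun x => f ^ n * f ∈ Id S x) ?_).mp (mul_Id ih hf)
    push_cast
    ring

theorem prod_Id {ι : Type*} (s : Finset ι) (f : ι → QS S) (a : ι → ℝ) (h : ∀ i ∈ s, f i ∈ Id S (a i)) :
    ∏ i ∈ s, f i ∈ Id S (∑ i ∈ s, a i) := by
  classical
  induction s using Finset.induction_on with
  | empty =>
    rw [Finset.sum_empty]
    exact mem_Id_nonpos le_rfl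
  | insert i s hi ih =>
    rw [Finset.prod_insert hi, Finset.sum_insert hi]
    exact mul_Id (h i (Finset.mem_insert_self i s)) (ih fun j hj => h j (Finset.mem_insert_of_mem hj))

section ws

variable {σ τ : Type} [Fintype σ] [Fintype τ]

/-- WEIGHTED SMALL POLYNOMIALS -/
def WS (wt : σ → ℝ) (s r : ℝ) (P : MvPolynomial σ (QS S)) : Prop := ∀ m, P.coeff m ∈ Id S (r - wgt wt m * s)

variable {wt : σ → ℝ} {s : ℝ} {P Q : MvPolynomial σ (QS S)} {r r' : ℝ}

theorem WS.zero : WS wt s r (0 : MvPolynomial σ (QS S)) := fun m => by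
  rw [MvPolynomial.coeff_zero]
  exact Ideal.zero_mem _

theorem WS.add (hP : WS wt s r P) (hQ : WS wt s r Q) : WS wt s r (P + Q) := fun m => by
  rw [MvPolynomial.coeff_add]
  exact Ideal.add_mem _ (hP m) (hQ m)

theorem WS.neg (hP : WS wt s r P) : WS wt s r (-P) := fun m => by
  rw [MvPolynomial.coeff_neg]
  exact (Ideal.neg_mem_iff _).mpr (hP m)

theorem WS.sub (hP : WS wt s r P) (hQ : WS wt s r Q) : WS wt s r (P - Q) := fun m => by
  rw [MvPolynomial.coeff_sub]
  exact Ideal.sub_mem _ (hP m) (hQ m)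

theorem WS.mono (hP : WS wt s r P) (h : r' ≤ r) : WS wt s r' P := fun m => Id_mono (by linarith) (hP m)

theorem WS.sum {ι : Type*} (t : Finset ι) {f : ι → MvPolynomial σ (QS S)} (h : ∀ i ∈ t, WS wt s r (f i)) :
    WS wt s r (∑ i ∈ t, f i) := fun m => by
  rw [MvPolynomial.coeff_sum]
  exact Ideal.sum_mem _ fun i hi => h i hi m

theorem WS.mul (hP : WS wt s r P) (hQ : WS wt s r' Q) : WS wt s (r + r') (P * Q) := fun m => by
  classical
  rw [MvPolynomial.coeff_mul]
  apply Ideal.sum_mem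
  intro x hx
  have h1 := mul_Id (hP x.1) (hQ x.2)
  have h2 : wgt wt m = wgt wt x.1 + wgt wt x.2 := by
    rw [← wgt_add, Finset.HasAntidiagonal.mem_antidiagonal.mp hx]
  refine (congrArg (fun y => P.coeff x.1 * Q.coeff x.2 ∈ Id S y) ?_).mp h1
  rw [h2]
  ring

theorem WS.C (hwt : ∀ a, 0 ≤ wt a) (hs : 0 ≤ s) {f : QS S} (hf : f ∈ Id S r) :
    WS wt s r (MvPolynomial.C f : MvPolynomial σ (QS S)) := fun m => by
  classical
  rw [MvPolynomial.coeff_C]
  split_ifs with h
  · have := mul_nonneg (wgt_nonneg hwt m) hs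
    exact Id_mono (by linarith) hf
  · exact Ideal.zero_mem _

theorem WS.one (hwt : ∀ a, 0 ≤ wt a) (hs : 0 ≤ s) : WS wt s 0 (1 : MvPolynomial σ (QS S)) := fun m => by
  have := mul_nonneg (wgt_nonneg hwt m) hs
  exact mem_Id_nonpos (by linarith)

theorem WS.X (a : σ) : WS wt s (wt a * s) (MvPolynomial.X a : MvPolynomial σ (QS S)) := fun m => by
  classical
  rw [MvPolynomial.coeff_X]
  split_ifs with h
  · rw [← h, wgt_single, sub_self]
    exact mem_Id_nonpos le_rfl
  · exact Ideal.zero_mem _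

theorem WS.pow (hwt : ∀ a, 0 ≤ wt a) (hs : 0 ≤ s) (hP : WS wt s r P) (n : ℕ) : WS wt s (n * r) (P ^ n) := by
  induction n with
  | zero =>
    rw [Nat.cast_zero, zero_mul, pow_zero]
    exact WS.one hwt hs
  | succ n ih =>
    rw [pow_succ]
    refine (congrArg (fun x => WS wt s x (P ^ n * P)) ?_).mp (ih.mul hP)
    push_cast
    ring

theorem WS.prod (hwt : ∀ a, 0 ≤ wt a) (hs : 0 ≤ s) {ι : Type*} (t : Finset ι) (f : ι → MvPolynomial σ (QS S))
    (a : ι → ℝ) (h : ∀ i ∈ t, WS wt s (a i) (f i)) : WS wt s (∑ i ∈ t, a i) (∏ i ∈ t, f i) := by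
  classical
  induction t using Finset.induction_on with
  | empty =>
    rw [Finset.sum_empty, Finset.prod_empty]
    exact WS.one hwt hs
  | insert i t hi ih =>
    rw [Finset.prod_insert hi, Finset.sum_insert hi]
    exact (h i (Finset.mem_insert_self i t)).mul (ih fun j hj => h j (Finset.mem_insert_of_mem hj))

/-- substitution -/
theorem WS.aeval {wt' : τ → ℝ} (hwt' : ∀ a, 0 ≤ wt' a) (hs : 0 ≤ s) (hP : WS wt s r P)
    {φ : σ → MvPolynomial τ (QS S)} (hφ : ∀ a, WS wt' s (wt a * s) (φ a)) :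
    WS wt' s r (MvPolynomial.aeval φ P) := by
  rw [MvPolynomial.aeval_def, MvPolynomial.eval₂_eq']
  apply WS.sum
  intro m _
  have h1 : WS wt' s (r - wgt wt m * s) (algebraMap (QS S) (MvPolynomial τ (QS S)) (P.coeff m)) :=
    WS.C hwt' hs (hP m)
  have h2 : WS wt' s (∑ a, (m a : ℝ) * (wt a * s)) (∏ a, φ a ^ m a) :=
    WS.prod hwt' hs Finset.univ _ _ fun a _ => (hφ a).pow hwt' hs (m a)
  refine (congrArg (fun x => WS wt' s x _) ?_).mp (h1.mul h2)
  unfold wgt
  rw [Finset.sum_mul]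
  have e1 : ∀ a, (m a : ℝ) * (wt a * s) = (m a : ℝ) * wt a * s := fun a => by ring
  simp only [e1]
  ring

/-- values at small points -/
theorem WS.eval (hP : WS wt s r P) {x : σ → QS S} (hx : ∀ a, x a ∈ Id S (wt a * s)) :
    MvPolynomial.eval x P ∈ Id S r := by
  rw [MvPolynomial.eval_eq']
  apply Ideal.sum_mem
  intro m _
  have h2 : ∏ a, x a ^ m a ∈ Id S (∑ a, (m a : ℝ) * (wt a * s)) :=
    prod_Id Finset.univ _ _ fun a _ => pow_Id (hx a) (m a)
  refine (congrArg (fun y => P.coeff m * ∏ a, x a ^ m a ∈ Id S y) ?_).mp (mul_Id (hP m) h2)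
  unfold wgt
  rw [Finset.sum_mul]
  have e1 : ∀ a, (m a : ℝ) * (wt a * s) = (m a : ℝ) * wt a * s := fun a => by ring
  simp only [e1]
  ring

theorem WS.map {T : Sp} (p : Pj T S) (hP : WS wt s r P) : WS wt s r (MvPolynomial.map p.qs P) := fun m => by
  rw [MvPolynomial.coeff_map]
  exact qs_Id p (hP m)

/-- parts of polynomials -/
def part (A : (σ →₀ ℕ) → Prop) [DecidablePred A] (P : MvPolynomial σ (QS S)) : MvPolynomial σ (QS S) :=
  ∑ m ∈ P.support.filter A, MvPolynomial.monomial m (P.coeff m)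

theorem coeff_part (A : (σ →₀ ℕ) → Prop) [DecidablePred A] (P : MvPolynomial σ (QS S)) (m : σ →₀ ℕ) :
    (part A P).coeff m = if A m then P.coeff m else 0 := by
  classical
  unfold part
  rw [MvPolynomial.coeff_sum]
  simp only [MvPolynomial.coeff_monomial]
  rw [Finset.sum_ite_eq' (P.support.filter A) m]
  by_cases hA : A m
  · rw [if_pos hA]
    by_cases hm : m ∈ P.support
    · rw [if_pos (Finset.mem_filter.mpr ⟨hm, hA⟩)]
    · rw [if_neg (fun h => hm (Finset.mem_filter.mp h).1), MvPolynomial.notMem_support_iff.mp hm]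
  · rw [if_neg hA, if_neg (fun h => hA (Finset.mem_filter.mp h).2)]

theorem part_PK (A : (σ →₀ ℕ) → Prop) [DecidablePred A] {B : S.L} (hP : P ∈ PK B) : part A P ∈ PK B := by
  intro m
  rw [coeff_part]
  split_ifs
  · exact hP m
  · exact (Kn S 1 le_rfl _).zero_mem

end ws

end

end Pool.Agent.Helper79.LBR
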