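import Pool.Agent.Helper79.LBR.Ws

/-! Boxes with flat lower coordinates: the relation of the next coordinate in every box, with the same jets for all
scales. -/

set_option autoImplicit false
set_option linter.unusedSectionVars false

namespace Pool.Agent.Helper79.LBR

open Finset Filter Topology Pool.Agent.Helper69.RK Pool.Agent.Helper31.EC Pool.Agent.Helper31.EC.Sp
open Pool.Agent.Helper31.EC.QS Pool.Agent.Helper57.TA Pool.Agent.Helper21.DO Pool.Agent.Helper38.NS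
open Pool.Agent.Helper79.JET Pool.Agent.Helper79.WLK
open Pool.Agent.Helper14.WLK (LG CS LF_map)

noncomputable section

variable {S : Sp} {β κ : Type} [Fintype β] [Fintype κ]

theorem LG_map {ι : Type} {g : ι → QS S} {W : Sp} {P0 P1 : Pj W S} (hc : ∀ i, P0.qs (g i) = P1.qs (g i)) {σ : Type}
    {P : MvPolynomial σ (QS S)} (hP : P ∈ CS (LG g)) : MvPolynomial.map P0.qs P = MvPolynomial.map P1.qs P := by
  ext m
  rw [MvPolynomial.coeff_map, MvPolynomial.coeff_map]
  exact hP m W P0 P1 (fun _ _ _ => rfl) hc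

/-- ONE BOX of scale `s`: centre `q0`, flat coordinates `R k = Ψ k (q - q0) + small`, frame `F` of the next coordinate
in the flat box coordinates; the frame is a function of the finite family `g` -/
structure Fr1 (q : β → QS S) (R : κ → QS S) (Q : κ → MvPolynomial β (QS S)) (z : QS S) (wt : β ⊕ κ → ℝ) (w : ℝ)
    {ι : Type} [Fintype ι] (g : ι → QS S) (s : ℝ) where
  q0 : β → QS S
  Ψ : κ → MvPolynomial β (QS S)
  F : MvPolynomial (β ⊕ κ) (QS S)
  q0L : ∀ a, q0 a ∈ LG g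
  ΨL : ∀ k, Ψ k ∈ CS (LG g)
  FL : F ∈ CS (LG g)
  hq : ∀ a, q a - q0 a ∈ Id S (wt (Sum.inl a) * s)
  hR : ∀ k, R k - MvPolynomial.eval (fun a => q a - q0 a) (Ψ k) ∈ Id S (wt (Sum.inr k) * s)
  hz : z - MvPolynomial.eval (Sum.elim (fun a => q a - q0 a)
    (fun k => R k - MvPolynomial.eval (fun a => q a - q0 a) (Ψ k))) F ∈ Id S (w * s)
  unt : ∀ k n, n ≠ 0 → (sh (fun a => q a - q0 a) (Ψ k) - Q k).coeff n ∈
    Id S (wt (Sum.inr k) * s - wgt (fun a => wt (Sum.inl a)) n * s)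
  full : h (vd (Sum.elim q R) 1) (vd g 1) = ∑ a, (1 - wt a * s)

namespace Fr1

variable {q : β → QS S} {R : κ → QS S} {Q : κ → MvPolynomial β (QS S)} {z : QS S} {wt : β ⊕ κ → ℝ} {w : ℝ}
    {ι : Type} [Fintype ι] {g : ι → QS S} {s : ℝ} (f : Fr1 q R Q z wt w g s)

include f

/-- horizontal box coordinates -/
def x (a : β) : QS S := q a - f.q0 a

/-- vertical box coordinates -/
def η (k : κ) : QS S := R k - MvPolynomial.eval f.x (f.Ψ k)

/-- defect of the horizontal jets -/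
def E (k : κ) : MvPolynomial β (QS S) := Q k - (sh f.x (f.Ψ k) - MvPolynomial.C (MvPolynomial.eval f.x (f.Ψ k)))

theorem E_zero (hQ : ∀ k, (Q k).coeff 0 = 0) (k : κ) : (f.E k).coeff 0 = 0 := by
  classical
  unfold E
  rw [MvPolynomial.coeff_sub, MvPolynomial.coeff_sub, hQ, MvPolynomial.coeff_C, if_pos rfl, coeff_zero_eval, sh_eval]
  simp

theorem E_ws (hQ : ∀ k, (Q k).coeff 0 = 0) (k : κ) :
    WS (fun a => wt (Sum.inl a)) s (wt (Sum.inr k) * s) (f.E k) := by
  classical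
  intro n
  by_cases hn : n = 0
  · rw [hn, f.E_zero hQ]
    exact Ideal.zero_mem _
  · have h1 := (Ideal.neg_mem_iff _).mpr (f.unt k n hn)
    refine (congrArg (· ∈ Id S (wt (Sum.inr k) * s - wgt (fun a => wt (Sum.inl a)) n * s)) ?_).mp h1
    unfold E
    rw [MvPolynomial.coeff_sub, MvPolynomial.coeff_sub, MvPolynomial.coeff_sub, MvPolynomial.coeff_C,
      if_neg (Ne.symm hn), sub_zero, neg_sub]
    rfl

variable {W : Sp} (P0 P1 : Pj W S)

/-- the flat box: the vertical displacement is small after subtraction of the horizontal jets -/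
theorem bc_mem (hs : 0 ≤ s) (hwt : ∀ a, 0 ≤ wt a) (hws : ∀ a, wt a * s ≤ 1) (hQ : ∀ k, (Q k).coeff 0 = 0)
    (hc : ∀ i, P0.qs (g i) = P1.qs (g i)) (a : β ⊕ κ) : bc P0 P1 q R Q a ∈ Id W (wt a * s) := by
  have hl : ∀ a, bc P0 P1 q R Q (Sum.inl a) ∈ Id W (wt (Sum.inl a) * s) := by
    intro a
    show P1.qs (q a) - P0.qs (q a) ∈ _
    have h0 : P0.qs (f.q0 a) = P1.qs (f.q0 a) := f.q0L a W P0 P1 (fun _ _ _ => rfl) hc
    have h1 := Ideal.sub_mem _ (qs_Id P1 (f.hq a)) (qs_Id P0 (f.hq a))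
    rw [map_sub, map_sub, h0] at h1
    refine (congrArg (· ∈ Id W (wt (Sum.inl a) * s)) ?_).mp h1
    ring
  rcases a with a | k
  · exact hl a
  · show P1.qs (R k) - P0.qs (R k) - MvPolynomial.eval (fun a => P1.qs (q a) - P0.qs (q a))
      (MvPolynomial.map P0.qs (Q k)) ∈ _
    have h0 : MvPolynomial.map P0.qs (f.Ψ k) = MvPolynomial.map P1.qs (f.Ψ k) := LG_map hc (f.ΨL k)
    have h1 := Ideal.sub_mem _ (qs_Id P1 (f.hR k)) (qs_Id P0 (f.hR k))
    have h2 := ((f.E_ws hQ k).map P0).eval (x := fun a => P1.qs (q a) - P0.qs (q a)) hl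
    have h3 := Ideal.sub_mem _ h1 h2
    refine (congrArg (· ∈ Id W (wt (Sum.inr k) * s)) ?_).mp h3
    have e1 : ∀ a, P1.qs (f.x a) = P0.qs (f.x a) + (P1.qs (q a) - P0.qs (q a)) := by
      intro a
      have h4 : P0.qs (f.q0 a) = P1.qs (f.q0 a) := f.q0L a W P0 P1 (fun _ _ _ => rfl) hc
      unfold x
      rw [map_sub, map_sub, h4]
      ring
    have e2 : MvPolynomial.map P0.qs (f.E k) = MvPolynomial.map P0.qs (Q k) -
        (sh (fun a => P0.qs (f.x a)) (MvPolynomial.map P0.qs (f.Ψ k)) -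
          MvPolynomial.C (MvPolynomial.eval (fun a => P0.qs (f.x a)) (MvPolynomial.map P0.qs (f.Ψ k)))) := by
      unfold E
      rw [map_sub, map_sub, map_sh, MvPolynomial.map_C, qs_eval]
    rw [e2, map_sub (MvPolynomial.eval _), map_sub (MvPolynomial.eval _), sh_eval, MvPolynomial.eval_C, map_sub,
      map_sub]
    have e3 : P0.qs (MvPolynomial.eval (fun a => q a - f.q0 a) (f.Ψ k)) =
        MvPolynomial.eval (fun a => P0.qs (f.x a)) (MvPolynomial.map P0.qs (f.Ψ k)) := qs_eval P0 _ _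
    have e4 : P1.qs (MvPolynomial.eval (fun a => q a - f.q0 a) (f.Ψ k)) =
        MvPolynomial.eval (fun a => P0.qs (f.x a) + (P1.qs (q a) - P0.qs (q a)))
          (MvPolynomial.map P0.qs (f.Ψ k)) := by
      rw [qs_eval, h0]
      congr 2
      funext a
      exact e1 a
    rw [e3, e4]
    ring

/-- LITERAL BOX -/
theorem lb (hs : 0 ≤ s) (hwt : ∀ a, 0 ≤ wt a) (hws : ∀ a, wt a * s ≤ 1) (hQ : ∀ k, (Q k).coeff 0 = 0) :
    LB q R Q wt g s :=
  ⟨fun _ P0 P1 hc => f.bc_mem P0 P1 hs hwt hws hQ hc, f.full⟩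

omit f in
/-- the substitution -/
def sbf (f : Fr1 q R Q z wt w g s) : β ⊕ κ → MvPolynomial (β ⊕ κ) (QS S) :=
  Sum.elim (fun a => MvPolynomial.C (f.x a) + MvPolynomial.X (Sum.inl a))
    (fun k => MvPolynomial.C (f.η k) + MvPolynomial.X (Sum.inr k) + MvPolynomial.rename Sum.inl (f.E k))

/-- all jets of the next coordinate -/
def Jf : MvPolynomial (β ⊕ κ) (QS S) :=
  MvPolynomial.aeval f.sbf f.F - MvPolynomial.C (MvPolynomial.eval (Sum.elim f.x f.η) f.F)

open Classical in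
/-- THE JETS of the next coordinate -/
def J : MvPolynomial (β ⊕ κ) (QS S) := part (fun m => m ≠ 0 ∧ wgt wt m < w) f.Jf

theorem J_w (m : β ⊕ κ →₀ ℕ) (hm : f.J.coeff m ≠ 0) : m ≠ 0 ∧ wgt wt m < w := by
  classical
  unfold J at hm
  rw [coeff_part] at hm
  by_contra hc
  rw [if_neg hc] at hm
  exact hm rfl

theorem Jf_zero (hQ : ∀ k, (Q k).coeff 0 = 0) : f.Jf.coeff 0 = 0 := by
  classical
  unfold Jf
  rw [MvPolynomial.coeff_sub, MvPolynomial.coeff_C, if_pos rfl, coeff_zero_eval, eval_sbs, sub_eq_zero]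
  congr 2
  funext a
  rcases a with a | k
  · show MvPolynomial.eval _ (MvPolynomial.C _ + MvPolynomial.X _) = f.x a
    rw [map_add, MvPolynomial.eval_C, MvPolynomial.eval_X, add_zero]
  · show MvPolynomial.eval _ (MvPolynomial.C _ + MvPolynomial.X _ + MvPolynomial.rename _ _) = f.η k
    rw [map_add, map_add, MvPolynomial.eval_C, MvPolynomial.eval_X, add_zero, MvPolynomial.eval_rename]
    have h1 : (fun _ => 0 : β ⊕ κ → QS S) ∘ Sum.inl = fun _ => 0 := rfl
    rw [h1, ← coeff_zero_eval, f.E_zero hQ, add_zero]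

/-- the relation of the next coordinate, all jets -/
theorem lr0 (hc : ∀ i, P0.qs (g i) = P1.qs (g i)) :
    P1.qs z - P0.qs z - MvPolynomial.eval (bc P0 P1 q R Q) (MvPolynomial.map P0.qs f.Jf) ∈ Id W (w * s) := by
  have h0 : MvPolynomial.map P0.qs f.F = MvPolynomial.map P1.qs f.F := LG_map hc f.FL
  have hΨ : ∀ k, MvPolynomial.map P0.qs (f.Ψ k) = MvPolynomial.map P1.qs (f.Ψ k) := fun k => LG_map hc (f.ΨL k)
  have h1 := Ideal.sub_mem _ (qs_Id P1 f.hz) (qs_Id P0 f.hz)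
  refine (congrArg (· ∈ Id W (w * s)) ?_).mp h1
  have e1 : ∀ a, P1.qs (f.x a) = P0.qs (f.x a) + (P1.qs (q a) - P0.qs (q a)) := by
    intro a
    have h4 : P0.qs (f.q0 a) = P1.qs (f.q0 a) := f.q0L a W P0 P1 (fun _ _ _ => rfl) hc
    unfold x
    rw [map_sub, map_sub, h4]
    ring
  have e2 : MvPolynomial.eval (bc P0 P1 q R Q) (MvPolynomial.map P0.qs f.Jf) =
      MvPolynomial.eval (fun a => P1.qs (Sum.elim f.x f.η a)) (MvPolynomial.map P0.qs f.F) -
        MvPolynomial.eval (fun a => P0.qs (Sum.elim f.x f.η a)) (MvPolynomial.map P0.qs f.F) := by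
    unfold Jf
    rw [map_sub, map_sub, MvPolynomial.map_C, MvPolynomial.eval_C, qs_eval, map_sbs, eval_sbs]
    congr 3
    funext a
    rcases a with a | k
    · show MvPolynomial.eval _ (MvPolynomial.map P0.qs (MvPolynomial.C _ + MvPolynomial.X _)) = P1.qs (f.x a)
      rw [map_add, map_add, MvPolynomial.map_C, MvPolynomial.map_X, MvPolynomial.eval_C, MvPolynomial.eval_X, e1]
      rfl
    · show MvPolynomial.eval _ (MvPolynomial.map P0.qs (MvPolynomial.C _ + MvPolynomial.X _ +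
        MvPolynomial.rename _ _)) = P1.qs (f.η k)
      have e3 : MvPolynomial.map P0.qs (f.E k) = MvPolynomial.map P0.qs (Q k) -
          (sh (fun a => P0.qs (f.x a)) (MvPolynomial.map P0.qs (f.Ψ k)) -
            MvPolynomial.C (MvPolynomial.eval (fun a => P0.qs (f.x a)) (MvPolynomial.map P0.qs (f.Ψ k)))) := by
        unfold E
        rw [map_sub, map_sub, map_sh, MvPolynomial.map_C, qs_eval]
      rw [map_add, map_add, map_add, map_add, MvPolynomial.map_C, MvPolynomial.map_X, MvPolynomial.eval_C,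
        MvPolynomial.eval_X, MvPolynomial.map_rename, MvPolynomial.eval_rename, e3,
        map_sub (MvPolynomial.eval _), map_sub (MvPolynomial.eval _), sh_eval, MvPolynomial.eval_C]
      have e5 : P1.qs (f.η k) = P1.qs (R k) - MvPolynomial.eval
          (fun a => P0.qs (f.x a) + (P1.qs (q a) - P0.qs (q a))) (MvPolynomial.map P0.qs (f.Ψ k)) := by
        unfold η
        rw [map_sub, qs_eval, hΨ k]
        congr 3
        funext a
        exact e1 a
      have e6 : P0.qs (f.η k) = P0.qs (R k) - MvPolynomial.eval (fun a => P0.qs (f.x a))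
          (MvPolynomial.map P0.qs (f.Ψ k)) := by
        unfold η
        rw [map_sub, qs_eval]
      rw [e5, e6]
      show _ + (P1.qs (R k) - P0.qs (R k) - MvPolynomial.eval (fun a => P1.qs (q a) - P0.qs (q a)) _) +
        (MvPolynomial.eval (fun a => P1.qs (q a) - P0.qs (q a)) _ - (MvPolynomial.eval (fun a => P0.qs (f.x a) +
          (P1.qs (q a) - P0.qs (q a))) _ - _)) = _
      ring
  rw [e2]
  have e7 : P1.qs (MvPolynomial.eval (Sum.elim (fun a => q a - f.q0 a)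
      (fun k => R k - MvPolynomial.eval (fun a => q a - f.q0 a) (f.Ψ k))) f.F) =
      MvPolynomial.eval (fun a => P1.qs (Sum.elim f.x f.η a)) (MvPolynomial.map P0.qs f.F) := by
    rw [qs_eval, h0]
    rfl
  have e8 : P0.qs (MvPolynomial.eval (Sum.elim (fun a => q a - f.q0 a)
      (fun k => R k - MvPolynomial.eval (fun a => q a - f.q0 a) (f.Ψ k))) f.F) =
      MvPolynomial.eval (fun a => P0.qs (Sum.elim f.x f.η a)) (MvPolynomial.map P0.qs f.F) := by
    rw [qs_eval]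
    rfl
  rw [map_sub, map_sub, e7, e8]
  ring

/-- THE RELATION of the next coordinate in the box -/
theorem lr (hs : 0 ≤ s) (hwt : ∀ a, 0 ≤ wt a) (hws : ∀ a, wt a * s ≤ 1) (hQ : ∀ k, (Q k).coeff 0 = 0) :
    LR q R Q z f.J g (w * s) := by
  classical
  intro W P0 P1 hc
  have h1 := f.lr0 P0 P1 hc
  have h2 : WS wt s (w * s) (f.Jf - f.J) := by
    intro m
    unfold J
    rw [MvPolynomial.coeff_sub, coeff_part]
    split_ifs with h
    · rw [sub_self]
      exact Ideal.zero_mem _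
    · rw [sub_zero]
      by_cases hm : m = 0
      · rw [hm, f.Jf_zero hQ]
        exact Ideal.zero_mem _
      · have h3 : w ≤ wgt wt m := by
          by_contra hlt
          exact h ⟨hm, not_le.mp hlt⟩
        apply mem_Id_nonpos
        have := mul_le_mul_of_nonneg_right h3 hs
        linarith
  have h3 := (h2.map P0).eval (x := bc P0 P1 q R Q) (f.bc_mem P0 P1 hs hwt hws hQ hc)
  rw [map_sub, map_sub] at h3
  refine (congrArg (· ∈ Id W (w * s)) ?_).mp (Ideal.add_mem _ h1 h3)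
  ring

/-- knowledge of the jets -/
theorem J_PK {A : S.L} (hq : vd q 1 ≤ A) (hR : vd R 1 ≤ A) (hg : vd g 1 ≤ A)
    (hQ : ∀ k, Q k ∈ PK A) : f.J ∈ PK A := by
  classical
  have hx : ∀ a, dg (f.x a) 1 ≤ A := fun a =>
    (dg_sub_le _ _ le_rfl).trans (sup_le ((dg_le_vd q 1 a).trans hq)
      ((Pool.Agent.Helper14.WLK.LG_know (f.q0L a)).trans hg))
  have hΨ : ∀ k, f.Ψ k ∈ PK A := fun k m => (Pool.Agent.Helper14.WLK.LG_know (f.ΨL k m)).trans hg
  have hF : f.F ∈ PK A := fun m => (Pool.Agent.Helper14.WLK.LG_know (f.FL m)).trans hg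
  have hη : ∀ k, dg (f.η k) 1 ≤ A := fun k =>
    (dg_sub_le _ _ le_rfl).trans (sup_le ((dg_le_vd R 1 k).trans hR) (QS.eval_mem (hΨ k) _ le_rfl hx))
  have hE : ∀ k, f.E k ∈ PK A := fun k => (PK _).sub_mem (hQ k)
    ((PK _).sub_mem (sbs_PK (hΨ k) fun a => (PK _).add_mem (C_mem (hx a)) (X_mem _ _))
      (C_mem (QS.eval_mem (hΨ k) _ le_rfl hx)))
  apply part_PK
  refine (PK _).sub_mem (sbs_PK hF ?_) (C_mem (QS.eval_mem hF _ le_rfl ?_))
  · rintro (a | k)
    · exact (PK _).add_mem (C_mem (hx a)) (X_mem _ _)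
    · exact (PK _).add_mem ((PK _).add_mem (C_mem (hη k)) (X_mem _ _)) (rename_PK (hE k) _)
  · rintro (a | k)
    · exact hx a
    · exact hη k

end Fr1

section scales

variable {q : β → QS S} {R : κ → QS S} {Q : κ → MvPolynomial β (QS S)} {z : QS S} {wt : β ⊕ κ → ℝ} {w : ℝ}

theorem exists_ell {wt : β ⊕ κ → ℝ} {s : ℝ} (hs : 0 ≤ s) (hwt : ∀ a, 0 ≤ wt a) (h1 : ∀ a, wt a * s < 1) :
    ∃ ℓ : ℝ, 0 < ℓ ∧ ℓ ≤ 1 ∧ ∀ a, ℓ ≤ 1 - wt a * s := by
  by_cases hne : Nonempty (β ⊕ κ)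
  · obtain ⟨a, -, ha⟩ := Finset.exists_min_image Finset.univ (fun a => 1 - wt a * s)
      ⟨Classical.choice hne, Finset.mem_univ _⟩
    refine ⟨1 - wt a * s, by have := h1 a; linarith, ?_, fun b => ha b (Finset.mem_univ b)⟩
    have := mul_nonneg (hwt a) hs
    linarith
  · exact ⟨1, one_pos, le_rfl, fun a => absurd ⟨a⟩ hne⟩

/-- jets of two boxes, one inside the other -/
theorem jets_two {ι ι' : Type} [Fintype ι] [Fintype ι'] {g : ι → QS S} {g' : ι' → QS S} {s' r : ℝ}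
    (hs' : 0 ≤ s') (hwt : ∀ a, 0 ≤ wt a) (h1 : ∀ a, wt a * s' < 1) (hr : r ≤ 1) (hm : vd g 1 ≤ vd g' 1)
    (hb : LB q R Q wt g' s') {J J' : MvPolynomial (β ⊕ κ) (QS S)} (hJ : LR q R Q z J g r)
    (hJ' : LR q R Q z J' g' r) : WS wt s' r (J - J') := by
  classical
  obtain ⟨ℓ, hℓ, hℓ1, hℓw⟩ := exists_ell hs' hwt h1
  obtain ⟨D, r0, P2, ξ, c1, c2, hξ, _, _, hRt⟩ := hb.fresh hs' hwt hℓ.le hℓw g hm (Pj.id S)
  obtain ⟨B, hB⟩ := exists_know (J - J')
  have hg' : ∀ i, (r0.comp (Pj.id S)).qs (g' i) = P2.qs (g' i) := fun i => by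
    rw [Pj.comp_qs]
    exact c1 i
  have hg : ∀ i, (r0.comp (Pj.id S)).qs (g i) = P2.qs (g i) := fun i => by
    rw [Pj.comp_qs]
    exact c2 i
  have h3 := Ideal.sub_mem _ (hJ' D _ _ hg') (hJ D _ _ hg)
  have h4 : MvPolynomial.eval (fun a => sc D (wt a * s') * ξ a) (MvPolynomial.map r0.qs (J - J')) ∈ Id D r := by
    have e1 : (fun a => sc D (wt a * s') * ξ a) = bc (r0.comp (Pj.id S)) P2 q R Q := by
      funext a
      exact (hξ a).symm
    have e2 : ∀ P : MvPolynomial (β ⊕ κ) (QS S), MvPolynomial.map (r0.comp (Pj.id S)).qs P =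
        MvPolynomial.map r0.qs P := by
      intro P
      rw [← map_pj_comp]
      congr 1
      ext m
      rw [MvPolynomial.coeff_map, Pj.id_qs]
    rw [e2, e2] at h3
    rw [e1, map_sub, map_sub]
    refine (congrArg (· ∈ Id D r) ?_).mp h3
    ring
  intro m
  have h5 := small_raw hwt hs' hℓ hℓ1 (hRt B) hr le_rfl (PKr_of_PK le_rfl (map_PK r0 hB)) h4 m
  rw [MvPolynomial.coeff_map, r0.qs_mem_Id] at h5
  · exact h5
  · have := mul_nonneg (wgt_nonneg hwt m) hs'
    linarith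

theorem WS.lr {ι : Type} [Fintype ι] {g : ι → QS S} {s : ℝ} {J J' : MvPolynomial (β ⊕ κ) (QS S)}
    (hb : LB q R Q wt g s) (h : WS wt s (w * s) (J - J')) (hJ : LR q R Q z J g (w * s)) :
    LR q R Q z J' g (w * s) := by
  intro W P0 P1 hc
  have h1 := hJ W P0 P1 hc
  have h3 := (h.map P0).eval (x := bc P0 P1 q R Q) (hb.mem W P0 P1 hc)
  rw [map_sub, map_sub] at h3
  refine (congrArg (· ∈ Id W (w * s)) ?_).mp (Ideal.add_mem _ h1 h3)
  ring

/-- ONE POLYNOMIAL OF JETS FOR ALL SCALES -/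
theorem exists_J {ι : ℝ → Type} [∀ s, Fintype (ι s)] {g : ∀ s, ι s → QS S} {s₀ : ℝ} (hs0 : 0 ≤ s₀)
    (hwt : ∀ a, 0 ≤ wt a) (h1 : ∀ a, wt a * s₀ < 1) (hw0 : 0 ≤ w) (hw : w * s₀ ≤ 1) (hQ : ∀ k, (Q k).coeff 0 = 0)
    (hf : ∀ s, 0 ≤ s → s ≤ s₀ → Nonempty (Fr1 q R Q z wt w (g s) s))
    (hm : ∀ s s', 0 ≤ s → s ≤ s' → s' ≤ s₀ → vd (g s) 1 ≤ vd (g s') 1) :
    ∃ J : MvPolynomial (β ⊕ κ) (QS S), (∀ m, J.coeff m ≠ 0 → m ≠ 0 ∧ wgt wt m < w) ∧
      (∀ A : S.L, vd q 1 ≤ A → vd R 1 ≤ A → vd (g s₀) 1 ≤ A → (∀ k, Q k ∈ PK A) → J ∈ PK A) ∧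
      ∀ s, 0 ≤ s → s ≤ s₀ → LB q R Q wt (g s) s ∧ LR q R Q z J (g s) (w * s) := by
  classical
  have hws : ∀ s, s ≤ s₀ → ∀ a, wt a * s < 1 := fun s hs a =>
    (mul_le_mul_of_nonneg_left hs (hwt a)).trans_lt (h1 a)
  obtain ⟨f⟩ := hf s₀ hs0 le_rfl
  refine ⟨f.J, f.J_w, fun A a1 a2 a3 a4 => f.J_PK a1 a2 a3 a4, ?_⟩
  intro s hs hss
  obtain ⟨f'⟩ := hf s hs hss
  have hb := f'.lb hs hwt (fun a => (hws s hss a).le) hQ
  refine ⟨hb, WS.lr hb ?_ (f'.lr hs hwt (fun a => (hws s hss a).le) hQ)⟩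
  -- a chain of scales
  have hJs : ∀ u, 0 ≤ u → u ≤ s₀ → ∃ J : MvPolynomial (β ⊕ κ) (QS S), LB q R Q wt (g u) u ∧
      LR q R Q z J (g u) (w * u) := by
    intro u hu hus
    obtain ⟨f''⟩ := hf u hu hus
    exact ⟨f''.J, f''.lb hu hwt (fun a => (hws u hus a).le) hQ, f''.lr hu hwt (fun a => (hws u hus a).le) hQ⟩
  have key : ∀ (n : ℕ) (δ : ℝ), 0 ≤ δ → ∀ u, 0 ≤ u → u + n * δ = s₀ → ∀ J : MvPolynomial (β ⊕ κ) (QS S),
      LR q R Q z J (g u) (w * u) → ∀ m, (J - f.J).coeff m ∈ Id S (w * u - wgt wt m * u - wgt wt m * δ) := by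
    intro n δ hδ
    induction n with
    | zero =>
      intro u hu hus J hJ m
      rw [Nat.cast_zero, zero_mul, add_zero] at hus
      subst hus
      have h2 := jets_two hu hwt h1 hw le_rfl (f.lb hu hwt (fun a => (h1 a).le) hQ) hJ
        (f.lr hu hwt (fun a => (h1 a).le) hQ) m
      have := mul_nonneg (wgt_nonneg hwt m) hδ
      exact Id_mono (by linarith) h2
    | succ n ih =>
      intro u hu hus J hJ m
      have hus' : u + δ + n * δ = s₀ := by
        rw [← hus]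
        push_cast
        ring
      have hud : u + δ ≤ s₀ := by
        have := mul_nonneg (Nat.cast_nonneg n : (0 : ℝ) ≤ n) hδ
        linarith
      have huu : u ≤ s₀ := by linarith
      have hwuu : w * u ≤ w * (u + δ) := mul_le_mul_of_nonneg_left (by linarith) hw0
      have hwus : w * (u + δ) ≤ w * s₀ := mul_le_mul_of_nonneg_left hud hw0
      obtain ⟨J', hb', hJ'⟩ := hJs (u + δ) (by linarith) hud
      have h2 := jets_two (r := w * u) (by linarith) hwt (hws _ hud) (by linarith) (hm u (u + δ) hu (by linarith) hud)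
        hb' hJ (hJ'.mono hwuu) m
      have h3 := ih (u + δ) (by linarith) hus' J' hJ' m
      have h4 : J - f.J = (J - J') + (J' - f.J) := by ring
      rw [h4, MvPolynomial.coeff_add]
      apply Ideal.add_mem
      · exact Id_mono (by linarith) h2
      · by_cases hmw : wgt wt m ≤ w
        · refine Id_mono ?_ h3
          have h5 : 0 ≤ (w - wgt wt m) * δ := mul_nonneg (by linarith) hδ
          have h6 : w * (u + δ) - wgt wt m * (u + δ) = w * u - wgt wt m * u + (w - wgt wt m) * δ := by ring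
          linarith
        · apply mem_Id_nonpos
          have h5 : (w - wgt wt m) * u ≤ 0 := mul_nonpos_of_nonpos_of_nonneg (by linarith [not_le.mp hmw]) hu
          have h6 := mul_nonneg (wgt_nonneg hwt m) hδ
          linarith
  intro m
  apply mem_Id_of_lt
  · have h2 := mul_nonneg (wgt_nonneg hwt m) hs
    have h3 := mul_le_mul_of_nonneg_left hss hw0
    linarith
  · intro r hr
    obtain ⟨n, hn⟩ := exists_nat_gt (wgt wt m * (s₀ - s) / (w * s - wgt wt m * s - r))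
    have hpos : 0 < w * s - wgt wt m * s - r := by linarith
    have hw' := mul_nonneg (wgt_nonneg hwt m) (sub_nonneg.mpr hss)
    have hn0 : 0 < (n : ℝ) := (div_nonneg hw' hpos.le).trans_lt hn
    have h2 := key n ((s₀ - s) / n) (div_nonneg (sub_nonneg.mpr hss) hn0.le) s hs (by
      rw [mul_div_cancel₀ _ hn0.ne']
      ring) f'.J (f'.lr hs hwt (fun a => (hws s hss a).le) hQ) m
    refine Id_mono ?_ h2
    rw [div_lt_iff₀ hpos] at hn
    have h3 : wgt wt m * ((s₀ - s) / n) ≤ w * s - wgt wt m * s - r := by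
      rw [← mul_div_assoc, div_le_iff₀ hn0]
      linarith
    linarith

end scales

end

end Pool.Agent.Helper79.LBR
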