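import Pool.Agent.Helper79.HLD.Zm
import Pool.Agent.Helper79.LBR.Gen

/-! The lower coordinates are full in every box of a corner. -/

set_option autoImplicit false
set_option linter.unusedSectionVars false

namespace Pool.Agent.Helper79.LBR

open Finset Filter Topology Pool.Agent.Helper69.RK Pool.Agent.Helper31.EC Pool.Agent.Helper31.EC.Sp
open Pool.Agent.Helper31.EC.QS Pool.Agent.Helper57.TA Pool.Agent.Helper21.DO Pool.Agent.Helper38.NS
open Pool.Agent.Helper79.JET Pool.Agent.Helper79.WLK Pool.Agent.Helper79.HLD Pool.Agent.Helper13.AM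

noncomputable section

variable {S : Sp}

/-- digits of a small function -/
theorem h_dg_small {f : QS S} {u : ℝ} (hu : 0 ≤ u) (hu1 : u ≤ 1) (hf : f ∈ Id S u) (A : S.L) :
    h (dg f 1) A ≤ 1 - u := by
  obtain ⟨g, hg, -⟩ := exists_div' hu hu1 hf
  rw [hg]
  exact (h_mono (dg_sc_mul hu hu1 le_rfl g)).trans ((h_le_H _ _).trans (H_dg_le g (by linarith)))

variable {d N r : ℕ} {c : CD S d N r} {w : Fin N → ℝ} {z : Fin N} {ρ : ℝ} {s : ℝ} {j : Fin N}

/-- the coordinates of lower weight -/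
abbrev Kp (w : Fin N → ℝ) (j : Fin N) : Type := {l : Fin N // w l < w j}

/-- weights of the lower coordinates -/
def wk (d : ℕ) (w : Fin N → ℝ) (j : Fin N) : Fin (d + 1) ⊕ Kp w j → ℝ := Sum.elim (fun _ => 1) fun l => w l.1

/-- the lower box coordinates -/
def bx (c : CD S d N r) (w : Fin N → ℝ) (j : Fin N) (s : ℝ) : Fin (d + 1) ⊕ Kp w j → QS S :=
  Sum.elim (fun i => c.q i - c.q0 s i) fun l => c.γ s l.1

theorem wk_nonneg (w1 : ∀ j, 1 < w j) (a : Fin (d + 1) ⊕ Kp w j) : 0 ≤ wk d w j a := by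
  rcases a with a | l
  · exact zero_le_one
  · exact (zero_lt_one.trans (w1 l.1)).le

theorem wk_le (w1 : ∀ j, 1 < w j) (wz : ∀ j, w j ≤ w z) (hs : 0 ≤ s) (hs1 : w z * s ≤ 1)
    (a : Fin (d + 1) ⊕ Kp w j) : wk d w j a * s ≤ 1 := by
  rcases a with a | l
  · show 1 * s ≤ 1
    have := mul_le_mul_of_nonneg_right (w1 z).le hs
    linarith
  · exact (mul_le_mul_of_nonneg_right (wz l.1) hs).trans hs1

theorem wk_lt (w1 : ∀ j, 1 < w j) (wz : ∀ j, w j ≤ w z) (hs : 0 ≤ s) (hs1 : w z * s ≤ 1)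
    (a : Fin (d + 1) ⊕ Kp w j) : wk d w j a * s < 1 := by
  rcases hs.eq_or_lt with h0 | h0
  · rw [← h0, mul_zero]
    exact one_pos
  · rcases a with a | l
    · show 1 * s < 1
      have := mul_lt_mul_of_pos_right (w1 z) h0
      linarith
    · have h2 := mul_lt_mul_of_pos_right (l.2.trans_le (wz j)) h0
      show w l.1 * s < 1
      linarith

theorem bx_mem (hb : c.Bx w z) (hs : 0 ≤ s) (hs1 : w z * s ≤ 1) (a : Fin (d + 1) ⊕ Kp w j) :
    bx c w j s a ∈ Id S (wk d w j a * s) := by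
  rcases a with a | l
  · show c.q a - c.q0 s a ∈ Id S (1 * s)
    rw [one_mul]
    exact hb.fq s hs hs1 a
  · exact hb.fγ s hs hs1 l.1

theorem H_real {n : ℕ} {q : Fin n → QS S} (hq : Rl q ⊥) : H (vd q 1) = n := by
  unfold Rl at hq
  rw [h_bot, Fintype.card_fin] at hq
  exact hq

/-- the base point is full in the box -/
theorem h_P_K (hA : c.Ax w z ρ) (hs : 0 ≤ s) (hs1 : w z * s ≤ 1) :
    h c.P (c.K s) = ((d : ℝ) + 1) * (1 - s) := by
  have h1 := hA.num.pr0 s hs hs1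
  rw [I_comm, I_eq, h_bot, sup_bot_eq] at h1
  have h2 : H c.P = (d : ℝ) + 1 := by
    have h3 := H_real hA.ln.real
    rw [Nat.cast_add, Nat.cast_one] at h3
    exact h3
  rw [h2] at h1
  linarith

/-- the lower coordinates are full over the base point and the box -/
theorem h_low (hA : c.Ax w z ρ) (hs : 0 ≤ s) (hs1 : w z * s ≤ 1) (j : Fin N) :
    ∑ l : Kp w j, (1 - w l.1 * s) ≤ h (vd (fun l : Kp w j => c.R l.1) 1) (c.K s ⊔ c.P) := by
  classical
  have hle : ∀ l, w l * s ≤ 1 := fun l => (mul_le_mul_of_nonneg_right (hA.wz l) hs).trans hs1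
  have hnn : ∀ l, 0 ≤ w l * s := fun l => mul_nonneg (zero_lt_one.trans (hA.w1 l)).le hs
  obtain ⟨U, hU⟩ : ∃ U : S.L, U = (univ.filter fun l => l ≠ z ∧ ¬ w l < w j).sup fun l => dg (c.γ s l) 1 := ⟨_, rfl⟩
  obtain ⟨B, hB⟩ : ∃ B : S.L, B = vd (fun l : Kp w j => c.R l.1) 1 := ⟨_, rfl⟩
  obtain ⟨KP, hKP⟩ : ∃ KP : S.L, KP = c.K s ⊔ c.P := ⟨_, rfl⟩
  have hK : c.K s ≤ KP := by rw [hKP]; exact le_sup_left
  have hP : c.P ≤ KP := by rw [hKP]; exact le_sup_right
  have hRB : ∀ l, w l < w j → dg (c.R l) 1 ≤ B := fun l hl => by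
    rw [hB]
    exact dg_le_vd (fun l : Kp w j => c.R l.1) 1 ⟨l, hl⟩
  have h1 : vd (c.M z) 1 ≤ (B ⊔ U) ⊔ KP := by
    rw [vd_le]
    rintro ⟨l, hl⟩
    show dg (c.R l) 1 ≤ _
    apply R_le hA.bx hA.w1 hs hs1 (hK.trans le_sup_right) (hP.trans le_sup_right) le_rfl
    intro l' hl'
    by_cases h2 : w l' < w j
    · refine (ga_le' (A := B ⊔ KP) hA.bx hA.w1 hs hs1 (hK.trans le_sup_right) (hP.trans le_sup_right) le_rfl l' ?_).trans
        (sup_le (le_sup_left.trans le_sup_left) le_sup_right)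
      rintro l'' (h3 | h3)
      · rw [h3]
        exact (hRB l' h2).trans le_sup_left
      · exact (hRB l'' (h3.trans h2)).trans le_sup_left
    · refine le_trans ?_ (le_sup_right.trans le_sup_left)
      rw [hU]
      exact Finset.le_sup (f := fun l => dg (c.γ s l) 1) (Finset.mem_filter.mpr ⟨Finset.mem_univ _,
        lower_ne hA hl hl', h2⟩)
  have h2 := hA.num.pr2 s 1 hs hs1 le_rfl
  rw [← hKP, mul_one] at h2
  have h3 : h (vd (c.M z) 1) KP ≤ h (B ⊔ U) KP := by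
    refine (h_mono h1).trans ?_
    rw [h_sup_right_of_le le_rfl]
  have h4 : h (B ⊔ U) KP ≤ h B KP + ∑ l ∈ univ.filter (fun l => l ≠ z ∧ ¬ w l < w j), (1 - w l * s) := by
    rw [h_chain]
    have h5 : h U (B ⊔ KP) ≤ ∑ l ∈ univ.filter (fun l => l ≠ z ∧ ¬ w l < w j), (1 - w l * s) := by
      rw [hU]
      refine (h_finsup_le _ _ _).trans (Finset.sum_le_sum fun l _ => ?_)
      exact h_dg_small (hnn l) (hle l) (hA.bx.fγ s hs hs1 l) _
    linarith
  have h5 : ∑ l ∈ univ.erase z, (1 - w l * s) =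
      ∑ l ∈ univ.filter (fun l => l ≠ z ∧ ¬ w l < w j), (1 - w l * s) + ∑ l : Kp w j, (1 - w l.1 * s) := by
    have e1 : ∑ l : Kp w j, (1 - w l.1 * s) = ∑ l ∈ univ.filter (fun l => w l < w j), (1 - w l * s) := by
      rw [Finset.sum_subtype (univ.filter fun l => w l < w j) (p := fun l => w l < w j) (by intro x; simp)
        fun l => 1 - w l * s]
    rw [e1, ← Finset.sum_union]
    · apply Finset.sum_congr _ fun _ _ => rfl
      ext l
      simp only [Finset.mem_erase, Finset.mem_univ, Finset.mem_union, Finset.mem_filter, true_and, and_true]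
      constructor
      · intro hl
        by_cases h6 : w l < w j
        · exact Or.inr h6
        · exact Or.inl ⟨hl, h6⟩
      · rintro (h6 | h6)
        · exact h6.1
        · rintro rfl
          exact absurd (h6.trans_le (hA.wz j)) (lt_irrefl _)
    · rw [Finset.disjoint_left]
      intro l hl hl'
      exact (Finset.mem_filter.mp hl).2.2 (Finset.mem_filter.mp hl').2
  have h6 : ∑ l ∈ univ.erase z, (1 - w l * s) = ((N : ℝ) - 1) - (∑ l ∈ univ.erase z, w l) * s := by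
    have hN : 1 ≤ N := Nat.succ_le_of_lt (Nat.lt_of_le_of_lt (Nat.zero_le _) z.isLt)
    rw [Finset.sum_sub_distrib, Finset.sum_const, Finset.card_erase_of_mem (Finset.mem_univ z), Finset.card_univ,
      Fintype.card_fin, nsmul_eq_mul, mul_one, Nat.cast_sub hN, Nat.cast_one, Finset.sum_mul]
  rw [← hKP, ← hB]
  linarith

/-- the first digits of the unit box coordinates are full over the box -/
theorem full_xi (hA : c.Ax w z ρ) (hs : 0 ≤ s) (hs1 : w z * s ≤ 1) {ℓ : ℝ} (hℓ : 0 ≤ ℓ)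
    (hw : ∀ a : Fin (d + 1) ⊕ Kp w j, ℓ ≤ 1 - wk d w j a * s) {ξ : Fin (d + 1) ⊕ Kp w j → QS S}
    (hξ : ∀ a, bx c w j s a = sc S (wk d w j a * s) * ξ a) : Rt ℓ ξ (c.K s) := by
  classical
  have hu0 : ∀ a : Fin (d + 1) ⊕ Kp w j, 0 ≤ wk d w j a * s := fun a => mul_nonneg (wk_nonneg hA.w1 a) hs
  have hu1 : ∀ a : Fin (d + 1) ⊕ Kp w j, wk d w j a * s ≤ 1 := wk_le hA.w1 hA.wz hs hs1
  apply Rt.of_ge hℓ
  obtain ⟨U, hU⟩ : ∃ U : S.L, U = Finset.univ.sup fun a => dg (ξ a) (1 - wk d w j a * s) := ⟨_, rfl⟩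
  have hUa : ∀ a, dg (bx c w j s a) 1 ≤ U := by
    intro a
    rw [hξ a]
    refine (dg_sc_mul (hu0 a) (hu1 a) le_rfl _).trans ?_
    rw [hU]
    exact Finset.le_sup (f := fun a => dg (ξ a) (1 - wk d w j a * s)) (Finset.mem_univ a)
  have hPU : c.P ≤ U ⊔ c.K s := by
    show vd c.q 1 ≤ _
    rw [vd_le]
    intro i
    have e1 : c.q i = (c.q i - c.q0 s i) + c.q0 s i := by ring
    rw [e1]
    exact (dg_add_le _ _ le_rfl).trans (sup_le ((hUa (Sum.inl i)).trans le_sup_left)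
      ((q0_le hA.bx s i).trans le_sup_right))
  have hRU : vd (fun l : Kp w j => c.R l.1) 1 ≤ U ⊔ c.K s := by
    rw [vd_le]
    rintro ⟨l, hl⟩
    show dg (c.R l) 1 ≤ _
    apply R_le hA.bx hA.w1 hs hs1 le_sup_right hPU le_rfl
    rintro l' (h3 | h3)
    · rw [h3]
      exact (hUa (Sum.inr ⟨l, hl⟩)).trans le_sup_left
    · exact (hUa (Sum.inr ⟨l', h3.trans hl⟩)).trans le_sup_left
  have h1 : ∑ a : Fin (d + 1) ⊕ Kp w j, (1 - wk d w j a * s) ≤ h U (c.K s) := by
    rw [Fintype.sum_sum_type]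
    have e1 : ∑ a : Fin (d + 1), (1 - wk d w j (Sum.inl a) * s) = ((d : ℝ) + 1) * (1 - s) := by
      have e2 : ∀ a : Fin (d + 1), 1 - wk d w j (Sum.inl a) * s = 1 - s := fun a => by
        show 1 - 1 * s = _
        ring
      simp only [e2]
      rw [Finset.sum_const, Finset.card_univ, Fintype.card_fin, nsmul_eq_mul]
      push_cast
      ring
    rw [e1, ← h_P_K hA hs hs1]
    have h2 : h (c.P ⊔ vd (fun l : Kp w j => c.R l.1) 1) (c.K s) ≤ h U (c.K s) := by
      refine (h_mono (sup_le hPU hRU)).trans ?_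
      rw [h_sup_right_of_le le_rfl]
    rw [h_chain] at h2
    have h3 := h_low hA hs hs1 j
    rw [sup_comm] at h3
    have h4 : ∑ l : Kp w j, (1 - wk d w j (Sum.inr l) * s) = ∑ l : Kp w j, (1 - w l.1 * s) := rfl
    rw [h4]
    linarith
  have h6 : h U (c.K s) ≤ h (vd ξ ℓ) (c.K s) + ∑ a, (1 - wk d w j a * s - ℓ) := by
    have h7 := h_triangle U (vd ξ ℓ) (c.K s)
    have h8 : h U (vd ξ ℓ ⊔ c.K s) ≤ ∑ a, (1 - wk d w j a * s - ℓ) := by
      rw [hU]
      refine (h_finsup_le Finset.univ _ _).trans ?_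
      apply Finset.sum_le_sum
      intro a _
      exact (h_anti ((dg_le_vd ξ ℓ a).trans le_sup_left)).trans (h_dg_dg _ (hw a))
    linarith
  have h8 : ∑ a : Fin (d + 1) ⊕ Kp w j, (1 - wk d w j a * s - ℓ) =
      ∑ a, (1 - wk d w j a * s) - Fintype.card (Fin (d + 1) ⊕ Kp w j) * ℓ := by
    rw [Finset.sum_sub_distrib, Finset.sum_const, nsmul_eq_mul]
    rfl
  linarith

end

end Pool.Agent.Helper79.LBR
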